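import Pool.Agent.H.MP_141b7f_lc.Check

set_option autoImplicit false

namespace Pool.Agent.H.MP_141b7f_lc
open Set

lemma box_fin (n R : ℕ) : {g : Fin n → ℤ | ∀ i, |g i| ≤ R}.Finite := by
  refine (Set.finite_Icc (fun _ => -(R : ℤ)) (fun _ => (R : ℤ))).subset fun g hg => ?_
  exact ⟨fun i => (abs_le.1 (hg i)).1, fun i => (abs_le.1 (hg i)).2⟩

variable {X : Type} [TopologicalSpace X] [BaireSpace X] [SecondCountableTopology X] [T1Space X]
  [MeasurableSpace X] [BorelSpace X]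

lemma ex_markers {n : ℕ} (a : (Fin n → ℤ) → X → X) (hm : ∀ g, Measurable (a g))
    (hfree : ∀ g x, a g x = x → g = 0) (R : ℕ → ℕ) :
    ∃ A : ℕ → Set X, (∀ k, MeasurableSet (A k)) ∧
      (∀ k x g, x ∈ A k → a g x ∈ A k → (∀ i, |g i| ≤ R k) → g = 0) ∧
      {x | ∀ N, ∃ k, N ≤ k ∧ x ∈ A k} ∈ residual X := by
  obtain ⟨B, hBc, _, hB⟩ := TopologicalSpace.exists_countable_basis X
  obtain ⟨b, hb⟩ := (hBc.insert ∅).exists_eq_range (insert_nonempty _ _)
  have hbo : ∀ m, IsOpen (b m) := by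
    intro m
    have : b m ∈ insert ∅ B := hb ▸ mem_range_self m
    rcases this with h | h
    · rw [h]; exact isOpen_empty
    · exact hB.isOpen h
  have hbs : ∀ U, IsOpen U → ∀ x ∈ U, ∃ m, x ∈ b m ∧ b m ⊆ U := by
    intro U hU x hx
    obtain ⟨V, hV, h1, h2⟩ := hB.exists_subset_of_mem_open hx hU
    obtain ⟨m, rfl⟩ : V ∈ range b := hb ▸ mem_insert_of_mem _ hV
    exact ⟨m, h1, h2⟩
  have key : ∀ k : ℕ, ∃ A : Set X, MeasurableSet A ∧
      (∀ x g, x ∈ A → a g x ∈ A → (∀ i, |g i| ≤ R k) → g = 0) ∧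
      ((b k.unpair.1).Nonempty → ¬ IsMeagre (A ∩ b k.unpair.1)) := by
    intro k
    let F := {g : Fin n → ℤ // (∀ i, |g i| ≤ R k) ∧ g ≠ 0}
    haveI : Finite F := ((box_fin n (R k)).subset fun g (hg : _ ∧ g ≠ 0) => hg.1).to_subtype
    let A : (F → ℕ) → Set X := fun φ => ⋂ g : F, (b (φ g) \ a g.1 ⁻¹' b (φ g))
    have hAm : ∀ φ, MeasurableSet (A φ) := fun φ => MeasurableSet.iInter fun g =>
      (hbo _).measurableSet.diff (hm _ (hbo _).measurableSet)
    have hAs : ∀ φ x g, x ∈ A φ → a g x ∈ A φ → (∀ i, |g i| ≤ R k) → g = 0 := by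
      intro φ x g h1 h2 h3
      by_contra h4
      exact (mem_iInter.1 h1 ⟨g, h3, h4⟩).2 (mem_iInter.1 h2 ⟨g, h3, h4⟩).1
    have hcov : ∀ x, ∃ φ, x ∈ A φ := by
      intro x
      have : ∀ g : F, ∃ m, x ∈ b m ∧ b m ⊆ {a g.1 x}ᶜ := fun g =>
        hbs _ isOpen_compl_singleton x fun e => g.2.2 (hfree _ _ (mem_singleton_iff.1 e).symm)
      choose φ h1 h2 using this
      exact ⟨φ, mem_iInter.2 fun g => ⟨h1 g, fun h => h2 g h rfl⟩⟩
    by_cases hne : (b k.unpair.1).Nonempty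
    · by_contra hc
      refine not_isMeagre_of_isOpen (hbo _) hne (IsMeagre.mono (s := ⋃ φ, A φ ∩ b k.unpair.1)
        (fun x hx => ?_) (isMeagre_iUnion fun φ => ?_))
      · obtain ⟨φ, h⟩ := hcov x
        exact mem_iUnion.2 ⟨φ, h, hx⟩
      · by_contra h
        exact hc ⟨A φ, hAm φ, hAs φ, fun _ => h⟩
    · exact ⟨∅, MeasurableSet.empty, fun x g h => h.elim, fun h => absurd h hne⟩
  choose A h1 h2 h3 using key
  refine ⟨A, h1, h2, ?_⟩
  rw [setOf_forall]
  refine countable_iInter_mem.2 fun N => ?_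
  have hG : MeasurableSet {x | ∃ k, N ≤ k ∧ x ∈ A k} := by
    rw [setOf_exists]
    exact MeasurableSet.iUnion fun k => (MeasurableSet.const _).inter (h1 k)
  obtain ⟨V, hV, hVe⟩ := hG.compl.residualEq_isOpen
  have hVe' := Filter.eventuallyEq_set.1 hVe
  rcases V.eq_empty_or_nonempty with rfl | ⟨z, hz⟩
  · filter_upwards [hVe'] with x hx
    by_contra h
    exact hx.1 h
  · obtain ⟨m, hm1, hm2⟩ := hbs V hV z hz
    have := h3 (Nat.pair m N)
    rw [Nat.unpair_pair] at this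
    refine absurd ?_ (this ⟨z, hm1⟩)
    unfold IsMeagre
    filter_upwards [hVe'] with x hx
    rintro ⟨c1, c2⟩
    exact hx.2 (hm2 c2) ⟨_, Nat.right_le_pair m N, c1⟩

def emb {n : ℕ} (i0 i1 : Fin n) (u v : ℤ) : Fin n → ℤ := Pi.single i0 u + Pi.single i1 v

lemma emb_add {n : ℕ} (i0 i1 : Fin n) (u v u' v' : ℤ) :
    emb i0 i1 (u + u') (v + v') = emb i0 i1 u v + emb i0 i1 u' v' := by
  unfold emb
  rw [Pi.single_add, Pi.single_add]
  abel

lemma emb_zero {n : ℕ} (i0 i1 : Fin n) : emb i0 i1 0 0 = 0 := by simp [emb]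

lemma emb_0 {n : ℕ} {i0 i1 : Fin n} (h : i0 ≠ i1) (u v : ℤ) : emb i0 i1 u v i0 = u := by
  simp [emb, h]

lemma emb_1 {n : ℕ} {i0 i1 : Fin n} (h : i0 ≠ i1) (u v : ℤ) : emb i0 i1 u v i1 = v := by
  simp [emb, h.symm]

lemma emb_2 {n : ℕ} {i0 i1 i : Fin n} (h0 : i ≠ i0) (h1 : i ≠ i1) (u v : ℤ) :
    emb i0 i1 u v i = 0 := by
  simp [emb, h0, h1]

theorem baire_main {n : ℕ} {i0 i1 : Fin n} (hi : i0 ≠ i1) (a : (Fin n → ℤ) → X → X)
    (h0 : ∀ x, a 0 x = x) (hadd : ∀ g h x, a (g + h) x = a g (a h x)) (hm : ∀ g, Measurable (a g))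
    (hfree : ∀ g x, a g x = x → g = 0) :
    ∃ (f : X → Fin 5 → ℤ) (C : Set X), (∀ t, Measurable fun x => f x t) ∧ (∀ x t, |f x t| ≤ 2) ∧
      MeasurableSet C ∧ (∀ g x, x ∈ C → a g x ∈ C) ∧ C ∈ residual X ∧
      ∀ x ∈ C, Rule fun i j => f (a (emb i0 i1 i j) x) := by
  obtain ⟨A, hA1, hA2, hA3⟩ := ex_markers a hm hfree fun k => 2 * k + pr k
  let Z : ℕ → Set X := fun k =>
    {x | ∃ g : Fin n → ℤ, (g i0 = 0 ∧ g i1 = 0 ∧ ∀ i, |g i| ≤ k) ∧ a (-g) x ∈ A k}
  have hZ : ∀ k, MeasurableSet (Z k) := fun k => by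
    simp only [Z]
    rw [setOf_exists]
    exact MeasurableSet.iUnion fun g => (MeasurableSet.const _).inter (hm _ (hA1 k))
  let cfg : X → Zc := fun x j u v => a (emb i0 i1 u v) x ∈ Z j
  have hcm : Measurable cfg := measurable_pi_lambda _ fun j => measurable_pi_lambda _ fun u =>
    measurable_pi_lambda _ fun v => measurableSet_setOfPred.1 (hm _ (hZ j))
  have hcs : ∀ x u v, cfg (a (emb i0 i1 u v) x) = shift (cfg x) u v := by
    intro x u v
    funext j p q
    simp only [cfg, shift, emb_add, hadd]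
  have hsep : ∀ x, Sep (cfg x) := by
    rintro x j u v u' v' ⟨g, ⟨g0, g1, g2⟩, hg⟩ ⟨g', ⟨g0', g1', g2'⟩, hg'⟩ hd
    have e : a (-g') (a (emb i0 i1 u' v') x) =
        a (g - g' + emb i0 i1 (u' - u) (v' - v)) (a (-g) (a (emb i0 i1 u v) x)) := by
      rw [← hadd, ← hadd, ← hadd]
      congr 1
      have := emb_add i0 i1 (u' - u) (v' - v) u v
      rw [sub_add_cancel, sub_add_cancel] at this
      rw [this]
      abel
    rw [e] at hg'
    have h1 := abs_nonneg (u - u')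
    have h2 := abs_nonneg (v - v')
    have := hA2 j _ _ hg hg' fun i => by
      simp only [Pi.add_apply, Pi.sub_apply]
      by_cases c0 : i = i0
      · subst c0
        rw [emb_0 hi, g0, g0', sub_self, zero_add, abs_sub_comm]
        omega
      by_cases c1 : i = i1
      · subst c1
        rw [emb_1 hi, g1, g1', sub_self, zero_add, abs_sub_comm]
        omega
      rw [emb_2 c0 c1, add_zero]
      have := abs_sub (g i) (g' i)
      have := g2 i
      have := g2' i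
      omega
    have c0 := congrFun this i0
    have c1 := congrFun this i1
    simp only [Pi.add_apply, Pi.sub_apply, emb_0 hi, emb_1 hi, Pi.zero_apply] at c0 c1
    omega
  refine ⟨fun x => lab (cfg x), {x | ∀ g, ∃ q, In (cfg (a g x)) q 0 0},
    fun t => (lab_meas t).comp hcm, fun x t => lab_bd _ t, ?_, ?_, ?_, ?_⟩
  · exact Measurable.setOf (Measurable.forall fun g => Measurable.exists fun q =>
      (In_meas q 0 0).comp (hcm.comp (hm g)))
  · intro g x hx h
    rw [← hadd]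
    exact hx _
  · filter_upwards [hA3] with x hx g
    obtain ⟨k, hk, hxk⟩ := hx (2 * (∑ i, |g i|).toNat)
    have hb : ∀ i, |g i| ≤ ∑ i, |g i| := fun i =>
      Finset.single_le_sum (f := fun i => |g i|) (fun _ _ => abs_nonneg _) (Finset.mem_univ i)
    have b0 := hb i0
    have b1 := hb i1
    refine ⟨(k, -g i0, -g i1), ⟨g + emb i0 i1 (-g i0) (-g i1), ⟨?_, ?_, fun i => ?_⟩, ?_⟩, ?_⟩
    · simp [emb_0 hi]
    · simp [emb_1 hi]
    · simp only [Pi.add_apply]
      by_cases c0 : i = i0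
      · subst c0
        simp [emb_0 hi]
      by_cases c1 : i = i1
      · subst c1
        simp [emb_1 hi]
      rw [emb_2 c0 c1, add_zero]
      have := hb i
      have := abs_nonneg (g i)
      omega
    · simp only
      rw [← hadd, ← hadd]
      convert hxk
      convert h0 x
      abel
    · refine (sh_spec k ((hsep _).shift _ _)).inn _ _ ?_
      simp only [sub_neg_eq_add, zero_add]
      omega
  · intro x hx
    simp only [hcs]
    refine rule_lab (hsep x) fun u v => ?_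
    obtain ⟨q, hq⟩ := hx (emb i0 i1 u v)
    rw [hcs, In_shift, zero_add, zero_add] at hq
    exact ⟨_, hq⟩

end Pool.Agent.H.MP_141b7f_lc
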