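import Pool.Agent.H.MP_141b7f_lc.Lab

set_option autoImplicit false

namespace Pool.Agent.H.MP_141b7f_lc

variable {ζ : Zc}

theorem rule_lab (hζ : Sep ζ) (hc : ∀ x y, ∃ q, In ζ q x y) :
    Rule fun i j => lab (shift ζ i j) := by
  classical
  obtain ⟨q0, q1, hk, ⟨x0, y0, hw0, hI0⟩, h0, h1⟩ := window hζ hc
  let O : ℤ → ℤ → Ix := fun x y => if In ζ q0 x y then q0 else q1
  let H : ℤ → ℤ → ℤ := fun x y => if In ζ q0 x y then 1 else 0
  have hO : ∀ x y : ℤ, |x| + |y| ≤ 10 → Own ζ (O x y) x y := by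
    intro x y hw
    simp only [O]
    split_ifs with h
    · exact h0 x y hw h
    · exact h1 x y hw h
  have hlab : ∀ x y : ℤ, |x| ≤ 4 → |y| ≤ 4 → lab (shift ζ x y) =
      lab0 (O x y) (O (x + 1) y).1 (O x (y + 1)).1 (PS ζ (O x y)) x y := by
    intro x y hx hy
    have := abs_add_le x 1
    have := abs_add_le y 1
    exact lab_eq hζ (hO _ _ (by omega)) (hO _ _ (by rw [abs_one] at *; omega))
      (hO _ _ (by rw [abs_one] at *; omega))
  have hdd : ∀ x y x' y', dd (O x y).1 (O x' y').1 = H x' y' - H x y := by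
    intro x y x' y'
    simp only [O, H, dd]
    split_ifs <;> omega
  have hlt : ∀ x y x' y', H x' y' < H x y ↔ In ζ q0 x y ∧ ¬ In ζ q0 x' y' := by
    intro x y x' y'
    simp only [H]
    split_ifs <;> simp [*]
  have hS := sh_spec q0.1 (hζ.shift q0.2.1 q0.2.2)
  have hIn : ζ q0.1 q0.2.1 q0.2.2 := hI0.1
  have hIff : ∀ i j, In ζ q0 i j ↔ sh0 q0.1 (trunc q0.1 (shift ζ q0.2.1 q0.2.2))
      (0 - q0.2.1 + i) (0 - q0.2.2 + j) := by
    intro i j
    rw [show 0 - q0.2.1 + i = i - q0.2.1 by ring, show 0 - q0.2.2 + j = j - q0.2.2 by ring]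
    exact ⟨fun h => h.2, fun h => ⟨hIn, h⟩⟩
  have l00 := hlab 0 0 (by norm_num) (by norm_num)
  refine ⟨H, fun i j hi hj => ?_, ?_, ?_, ?_, ?_, ?_, ?_, ?_, ?_, ?_⟩
  · unfold Grad
    simp only [hlab i j hi hj, lab0, Matrix.cons_val, hdd, and_self]
  · simp only [l00, lab0, Matrix.cons_val]
    exact dd_bd _ _
  · simp only [l00, lab0, Matrix.cons_val]
    exact dd_bd _ _
  · simp only [hlt, hIff, zero_add, add_zero, zero_sub, ← sub_eq_add_neg]
    have := hS.r2 (-q0.2.1) (-q0.2.2)
    tauto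
  · simp only [l00, lab0, Matrix.cons_val]
    exact fun h => if_neg h
  · simp only [l00, lab0, Matrix.cons_val]
    exact fun h => if_neg h
  · have lm0 := hlab (-1) 0 (by norm_num) (by norm_num)
    have l0m := hlab 0 (-1) (by norm_num) (by norm_num)
    simp only [zero_sub, zero_add, l00, lm0, l0m, lab0, Matrix.cons_val, hdd, neg_add_cancel, hlt]
    by_cases c : In ζ q0 0 0
    · by_cases call : In ζ q0 1 0 ∧ In ζ q0 (-1) 0 ∧ In ζ q0 0 1 ∧ In ζ q0 0 (-1)
      · obtain ⟨c1, c2, c3, c4⟩ := call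
        simp only [O, H, c, c1, c2, c3, c4, if_true, sub_self]
        norm_num
        ring
      · have hout : ∃ x y : ℤ, |x| + |y| ≤ 1 ∧ ¬ In ζ q0 x y := by
          by_contra hne
          simp only [not_exists, not_and, not_not] at hne
          exact call ⟨hne _ _ (by norm_num), hne _ _ (by norm_num), hne _ _ (by norm_num),
            hne _ _ (by norm_num)⟩
        obtain ⟨x, y, hxy, hn⟩ := hout
        have hP : ∀ u v : ℤ, |u| + |v| ≤ 2 → PS ζ q0 u v = u - q0.2.1 := fun u v huv =>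
          PS_ext hζ c hn (by simpa using huv.trans (by norm_num))
            (wd (huv.trans (by norm_num)) (hxy.trans (by norm_num)))
        have p1 := hP 0 0 (by norm_num)
        have p2 := hP (-1) 0 (by norm_num)
        have p3 := hP 0 (-1) (by norm_num)
        have p4 := hP (-1) (-1) (by norm_num)
        by_cases c1 : In ζ q0 1 0 <;> by_cases c2 : In ζ q0 (-1) 0 <;>
          by_cases c3 : In ζ q0 0 1 <;> by_cases c4 : In ζ q0 0 (-1) <;>
          simp [O, H, c, c1, c2, c3, c4, p1, p2, p3, p4]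
    · have hq1 := (h1 0 0 (by norm_num) c).1
      obtain ⟨e, he⟩ := PS_flat hζ hk hIn (by
        have a := near (near (hq1.out hζ) (wd (x := 0) (y := 0) (by norm_num) hw0))
          (near_symm (hI0.out hζ))
        have b := pa_le_pD hk
        have d := pD_le_pW q0.1
        unfold pa at b
        omega)
      have p1 := he 0 0
      have p2 := he (-1) 0
      have p3 := he 0 (-1)
      have p4 := he (-1) (-1)
      simp only [zero_add, neg_add_cancel] at p1 p2 p3 p4
      by_cases c1 : In ζ q0 1 0 <;> by_cases c2 : In ζ q0 (-1) 0 <;>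
        by_cases c3 : In ζ q0 0 1 <;> by_cases c4 : In ζ q0 0 (-1) <;>
        simp only [c, c1, c2, c3, c4, true_or, or_true, forall_true_left] at p1 p2 p3 p4 <;>
        simp [O, H, c, c1, c2, c3, c4] <;> omega
  · intro i j hi hj he
    simp only [zero_add] at he ⊢
    have : O i j = O 0 0 := by
      simp only [O, H] at he ⊢
      split_ifs at he ⊢ <;> first | rfl | omega
    simp only [l00, hlab i j hi hj, lab0, Matrix.cons_val, this]
    exact ⟨(0 - (O 0 0).2.2) / 2 - (j - (O 0 0).2.2) / 2, by omega⟩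
  · simp only [hlt, hIff, zero_add, add_zero, zero_sub, ← sub_eq_add_neg]
    have := hS.st (-q0.2.1) (-q0.2.2)
    tauto
  · simp only [hlt, hIff, zero_add, add_zero, zero_sub, ← sub_eq_add_neg]
    have := hS.sb (-q0.2.1) (-q0.2.2)
    tauto

end Pool.Agent.H.MP_141b7f_lc
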