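import Mathlib

set_option autoImplicit false

namespace Pool.Agent.H.MP_141b7f_lc

def pE : ℕ → ℕ
  | 0 => 0
  | j + 1 => pE j + 2 * (2 * (4 * (j + pE j) + 2) * ((j + 1) * (j + 2)) + 20 + 2 + pE j)

def pD (j : ℕ) : ℕ := 4 * (j + pE j)
def pW (j : ℕ) : ℕ := 2 * (pD j + 2) * ((j + 1) * (j + 2))
def pa (j : ℕ) : ℕ := pW j + 20
def pA (j : ℕ) : ℕ := pa j + 2 + pE j
def pX (j : ℕ) : ℕ := 8 * ((j + 1) * (j + 2)) * pA j
def pr (j : ℕ) : ℕ := 4 * pX j

lemma pE_succ (j : ℕ) : pE (j + 1) = pE j + 2 * pA j := rfl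

lemma pD_le_pW (j : ℕ) : pD j + 2 ≤ pW j := by
  unfold pW
  have : 1 ≤ (j + 1) * (j + 2) := Nat.succ_le_of_lt (by positivity)
  nlinarith

lemma pA_le_pX (j : ℕ) : 8 * pA j ≤ pX j := by
  unfold pX
  have : 1 ≤ (j + 1) * (j + 2) := Nat.succ_le_of_lt (by positivity)
  nlinarith

lemma pa_lt_pr (j : ℕ) : 4 * pa j < pr j := by
  have := pA_le_pX j
  unfold pr
  unfold pA at this
  omega

lemma pa_le_pD {j k : ℕ} (h : j < k) : pa j ≤ pD k := by
  have hm : Monotone pE := monotone_nat_of_le_succ fun j => by rw [pE_succ]; omega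
  have h1 := hm (show j + 1 ≤ k from h)
  rw [pE_succ] at h1
  unfold pA at h1
  unfold pD
  omega

abbrev Zc := ℕ → ℤ → ℤ → Prop

def Sep (ζ : Zc) : Prop :=
  ∀ j u v u' v', ζ j u v → ζ j u' v' → |u - u'| + |v - v'| < pr j → u = u' ∧ v = v'

def L1 (σ : ℝ) (π : ℤ → ℝ) : Prop := ∀ x x' : ℤ, π x ≤ π x' + σ * |(x : ℝ) - x'|

lemma curve_step (Z : ℤ → ℤ → Prop) (t0 π : ℤ → ℝ) (σ σ' A X : ℝ) (h0 : L1 1 t0) (hπ : L1 σ' π)
    (hσ' : 0 ≤ σ') (hσ : σ' ≤ σ) (hσ1 : σ ≤ 1) (hA : 0 ≤ A) (hX : 2 * A ≤ (σ - σ') * X)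
    (hX2 : 2 * A ≤ X)
    (hZ : ∀ u v u' v', Z u v → Z u' v' → |(u : ℝ) - u'| + |(v : ℝ) - v'| < 4 * X →
      u = u' ∧ v = v') :
    ∃ π' : ℤ → ℝ, L1 σ π' ∧ (∀ x, π x ≤ π' x) ∧ (∀ x, π' x ≤ π x + 2 * A) ∧
      ∀ u v, Z u v → A ≤ |v - t0 u - π' u| := by
  let S : ℤ → Set ℝ := fun x => {π x} ∪ {w | ∃ u v : ℤ, Z u v ∧ |v - t0 u - π u| < A ∧
    w = v - t0 u + A - σ * |(x : ℝ) - u|}
  have hten : ∀ (x u v : ℤ), |v - t0 u - π u| < A →
      v - t0 u + A - σ * |(x : ℝ) - u| ≤ π x + 2 * A - (σ - σ') * |(x : ℝ) - u| := by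
    intro x u v h
    have h1 := (abs_lt.1 h).2
    have h2 := hπ u x
    rw [abs_sub_comm] at h2
    linarith
  have hub : ∀ x, ∀ w ∈ S x, w ≤ π x + 2 * A := by
    rintro x w (rfl | ⟨u, v, _, h, rfl⟩)
    · linarith
    · have := hten x u v h
      have := mul_nonneg (sub_nonneg.2 hσ) (abs_nonneg ((x : ℝ) - u))
      linarith
  have hne : ∀ x, (S x).Nonempty := fun x => ⟨π x, Or.inl rfl⟩
  have hbd : ∀ x, BddAbove (S x) := fun x => ⟨_, hub x⟩
  have hle : ∀ x, π x ≤ sSup (S x) := fun x => le_csSup (hbd x) (Or.inl rfl)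
  refine ⟨fun x => sSup (S x), fun x x' => csSup_le (hne x) ?_, hle,
    fun x => csSup_le (hne x) (hub x), fun u v hz => ?_⟩
  · rintro w (rfl | ⟨u, v, hz, h, rfl⟩)
    · have h1 := hπ x x'
      have h2 := hle x'
      have := mul_le_mul_of_nonneg_right hσ (abs_nonneg ((x : ℝ) - x'))
      linarith
    · have h1 : v - t0 u + A - σ * |(x' : ℝ) - u| ≤ sSup (S x') :=
        le_csSup (hbd x') (Or.inr ⟨u, v, hz, h, rfl⟩)
      have h2 : |(x' : ℝ) - u| ≤ |(x : ℝ) - x'| + |(x : ℝ) - u| := by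
        have := abs_sub_le (x' : ℝ) x u
        rwa [abs_sub_comm (x' : ℝ) x] at this
      have := mul_le_mul_of_nonneg_left h2 (hσ'.trans hσ)
      linarith
  · by_cases hb : |v - t0 u - π u| < A
    · have h1 : v - t0 u + A - σ * |(u : ℝ) - u| ≤ sSup (S u) :=
        le_csSup (hbd u) (Or.inr ⟨u, v, hz, hb, rfl⟩)
      simp only [sub_self, abs_zero, mul_zero, sub_zero] at h1
      exact le_abs.2 (Or.inr (by linarith))
    · rcases le_abs.1 (not_lt.1 hb) with h1 | h1
      · refine le_abs.2 (Or.inl ?_)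
        have : sSup (S u) ≤ v - t0 u - A := by
          refine csSup_le (hne u) ?_
          rintro w (rfl | ⟨u', v', hz', h, rfl⟩)
          · linarith
          · by_cases hx : X ≤ |(u : ℝ) - u'|
            · have := hten u u' v' h
              have := mul_le_mul_of_nonneg_left hx (sub_nonneg.2 hσ)
              linarith
            · have h3 : 4 * X ≤ |(u : ℝ) - u'| + |(v : ℝ) - v'| := by
                by_contra hc
                obtain ⟨rfl, rfl⟩ := hZ u v u' v' hz hz' (not_le.1 hc)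
                exact hb h
              have h4 := h0 u u'
              have h5 := h0 u' u
              have h6 := hπ u' u
              rw [abs_sub_comm] at h5 h6
              have h7 := mul_le_mul_of_nonneg_right (hσ.trans hσ1) (abs_nonneg ((u : ℝ) - u'))
              have h8 := (abs_lt.1 h).2
              have h9 := mul_nonneg (hσ'.trans hσ) (abs_nonneg ((u : ℝ) - u'))
              rcases le_abs.1 (show 3 * X ≤ |(v : ℝ) - v'| by linarith) with h10 | h10 <;> linarith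
        linarith
      · have := hle u
        exact le_abs.2 (Or.inr (by linarith))

lemma curve (ζ : Zc) (hζ : Sep ζ) (t0 : ℤ → ℝ) (h0 : L1 1 t0) (k : ℕ) :
    ∀ π : ℤ → ℝ, L1 (1 / (4 * ((k : ℝ) + 1))) π → ∃ π' : ℤ → ℝ, L1 (1 / 4) π' ∧ (∀ x, π x ≤ π' x) ∧
      (∀ x, π' x ≤ π x + pE k) ∧ ∀ j < k, ∀ u v, ζ j u v → (pa j : ℝ) + 2 ≤ |v - t0 u - π' u| := by
  induction k with
  | zero =>
    intro π hπ
    exact ⟨π, by simpa using hπ, fun _ => le_rfl, fun _ => by simp [pE], fun j hj => by omega⟩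
  | succ k ih =>
    intro π hπ
    have hk : (0 : ℝ) ≤ k := Nat.cast_nonneg k
    obtain ⟨π1, a1, a2, a3, a4⟩ := curve_step (ζ k) t0 π (1 / (4 * ((k : ℝ) + 1))) _ (pA k) (pX k)
      h0 hπ (by positivity)
      (one_div_le_one_div_of_le (by positivity) (by push_cast; linarith))
      (by rw [div_le_one (by positivity)]; linarith) (by positivity)
      (by unfold pX; push_cast; apply le_of_eq; field_simp; ring)
      (by have := pA_le_pX k; exact_mod_cast (by omega : 2 * pA k ≤ pX k))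
      (fun u v u' v' h1 h2 h3 => hζ k u v u' v' h1 h2 (by unfold pr; exact_mod_cast h3))
    obtain ⟨π2, b1, b2, b3, b4⟩ := ih π1 a1
    refine ⟨π2, b1, fun x => (a2 x).trans (b2 x), fun x => ?_, fun j hj u v h => ?_⟩
    · have := a3 x
      have := b3 x
      rw [pE_succ]
      push_cast
      linarith
    · rcases Nat.lt_succ_iff_lt_or_eq.1 hj with hj | rfl
      · exact b4 j hj u v h
      · have h1 := a4 u v h
        have h2 := b2 u
        have h3 := b3 u
        unfold pA at h1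
        push_cast at h1
        rcases le_abs.1 h1 with h1 | h1
        · exact le_abs.2 (Or.inl (by linarith))
        · exact le_abs.2 (Or.inr (by have : (0 : ℝ) ≤ pE j := Nat.cast_nonneg _; linarith))

structure Shape (k : ℕ) (ζ : Zc) (K : ℤ → ℤ → Prop) : Prop where
  r2 : ∀ x y, K x y → ¬ K (x + 1) y ∨ ¬ K (x - 1) y → ¬ K x (y + 1) ∨ ¬ K x (y - 1)
  st : ∀ x y, K x y → ¬ K x (y + 1) → ¬ K (x + 4) (y - 1) ∨ ¬ K (x - 4) (y - 1)
  sb : ∀ x y, K x y → ¬ K x (y - 1) → ¬ K (x + 4) (y - 2) ∧ ¬ K (x - 4) (y - 2)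
  inn : ∀ x y : ℤ, |x| + |y| ≤ k → K x y
  out : ∀ x y, K x y → |x| + |y| ≤ pD k
  side : ∀ j < k, ∀ u v, ζ j u v → (∀ x y : ℤ, |x - u| + |y - v| ≤ pa j → K x y) ∨
    ∀ x y : ℤ, |x - u| + |y - v| ≤ pa j → ¬ K x y

lemma ex_shape (k : ℕ) (ζ : Zc) (hζ : Sep ζ) : ∃ K, Shape k ζ K := by
  have hk : (0 : ℝ) ≤ k := Nat.cast_nonneg k
  have z : L1 (1 / (4 * ((k : ℝ) + 1))) fun _ => 0 := fun x x' => by positivity
  have habs : ∀ x x' : ℤ, |(x' : ℝ)| ≤ |(x : ℝ)| + |(x : ℝ) - x'| := fun x x' => by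
    have := abs_sub (x : ℝ) (x - x')
    rwa [sub_sub_cancel] at this
  obtain ⟨p, p1, p2, p3, p4⟩ := curve ζ hζ (fun x => k - 3 / 4 * |(x : ℝ)|) (fun x x' => by
    have := habs x x'
    have := abs_nonneg ((x : ℝ) - x')
    linarith) k _ z
  obtain ⟨q, q1, q2, q3, q4⟩ := curve ζ hζ (fun _ => -(k + pE k)) (fun x x' => by
    have := abs_nonneg ((x : ℝ) - x')
    linarith) k _ z
  let t : ℤ → ℝ := fun x => k - 3 / 4 * |(x : ℝ)| + p x
  let b : ℤ → ℝ := fun x => -(k + pE k) + q x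
  have ht : ∀ x x' : ℤ, t x ≤ t x' + |(x : ℝ) - x'| := fun x x' => by
    have := habs x x'
    have := p1 x x'
    simp only [t]
    linarith
  have hb : ∀ x x' : ℤ, b x ≤ b x' + 1 / 4 * |(x : ℝ) - x'| := fun x x' => by
    have := q1 x x'
    simp only [b]
    linarith
  refine ⟨fun x y => b x ≤ y ∧ (y : ℝ) ≤ t x, ?_, ?_, ?_, ?_, ?_, ?_⟩
  · intro x y h1 h2
    by_contra hc
    simp only [not_or, not_not] at hc
    obtain ⟨⟨_, c1⟩, ⟨c2, _⟩⟩ := hc
    have a1 := ht x (x + 1)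
    have a2 := ht x (x - 1)
    have a3 := hb (x + 1) x
    have a4 := hb (x - 1) x
    push_cast at a1 a2 a3 a4 c1 c2
    norm_num at a1 a2 a3 a4
    rcases h2 with h2 | h2 <;> exact h2 ⟨by linarith, by linarith⟩
  · intro x y h1 h2
    have h3 : t x < y + 1 := by
      by_contra hc
      exact h2 ⟨by push_cast; linarith [h1.1], by push_cast; linarith⟩
    rcases le_total 0 x with hx | hx
    · refine Or.inl fun h => ?_
      have hx' : (0 : ℝ) ≤ x := by exact_mod_cast hx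
      have a1 := p1 (x + 4) x
      have a2 := h.2
      simp only [t] at a2 h3
      push_cast at a1 a2
      rw [abs_of_nonneg hx'] at h3
      rw [abs_of_nonneg (by linarith)] at a2
      norm_num at a1
      linarith
    · refine Or.inr fun h => ?_
      have hx' : (x : ℝ) ≤ 0 := by exact_mod_cast hx
      have a1 := p1 (x - 4) x
      have a2 := h.2
      simp only [t] at a2 h3
      push_cast at a1 a2
      rw [abs_of_nonpos hx'] at h3
      rw [abs_of_nonpos (by linarith)] at a2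
      norm_num at a1
      linarith
  · intro x y h1 h2
    have h3 : (y : ℝ) - 1 < b x := by
      by_contra hc
      exact h2 ⟨by push_cast; linarith, by push_cast; linarith [h1.2]⟩
    have a1 := hb x (x + 4)
    have a2 := hb x (x - 4)
    push_cast at a1 a2
    norm_num at a1 a2
    constructor <;> intro h <;> have a3 := h.1 <;> push_cast at a3 <;> linarith
  · intro x y h
    have h' : |(x : ℝ)| + |(y : ℝ)| ≤ k := by exact_mod_cast h
    have a1 := p2 x
    have a2 := q3 x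
    have a3 := abs_nonneg (x : ℝ)
    have a4 := le_abs_self (y : ℝ)
    have a5 := neg_abs_le (y : ℝ)
    simp only [t, b]
    constructor <;> linarith
  · intro x y h
    have a1 := p3 x
    have a2 := q2 x
    have a3 := abs_nonneg (x : ℝ)
    obtain ⟨h1, h2⟩ := h
    simp only [t, b] at h1 h2
    have a4 : |(y : ℝ)| ≤ k + pE k := abs_le.2 ⟨by linarith, by linarith⟩
    have a5 : (0 : ℝ) ≤ pE k := Nat.cast_nonneg _
    have : |(x : ℝ)| + |(y : ℝ)| ≤ 4 * (k + pE k) := by linarith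
    unfold pD
    exact_mod_cast this
  · intro j hj u v h
    have a1 := p4 j hj u v h
    have a2 := q4 j hj u v h
    have key : ∀ x y : ℤ, |x - u| + |y - v| ≤ pa j → |(y : ℝ) - t x - (v - t u)| ≤ pa j ∧
        |(y : ℝ) - b x - (v - b u)| ≤ pa j := by
      intro x y hxy
      have h' : |(x : ℝ) - u| + |(y : ℝ) - v| ≤ pa j := by exact_mod_cast hxy
      have c1 := ht x u
      have c2 := ht u x
      have c3 := hb x u
      have c4 := hb u x
      rw [abs_sub_comm] at c2 c4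
      have c5 := le_abs_self ((y : ℝ) - v)
      have c6 := neg_abs_le ((y : ℝ) - v)
      have c7 := abs_nonneg ((x : ℝ) - u)
      constructor <;> rw [abs_le] <;> constructor <;> linarith
    have e1 : (v : ℝ) - (k - 3 / 4 * |(u : ℝ)|) - p u = v - t u := by simp only [t]; ring
    have e2 : (v : ℝ) - -(k + pE k) - q u = v - b u := by simp only [b]; ring
    rw [e1] at a1
    rw [e2] at a2
    rcases le_abs.1 a1 with a1 | a1
    · refine Or.inr fun x y hxy hK => ?_
      have := (abs_le.1 (key x y hxy).1).1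
      linarith [hK.2]
    · rcases le_abs.1 a2 with a2 | a2
      · refine Or.inl fun x y hxy => ?_
        have := (abs_le.1 (key x y hxy).1).2
        have := (abs_le.1 (key x y hxy).2).1
        constructor <;> linarith
      · refine Or.inr fun x y hxy hK => ?_
        have := (abs_le.1 (key x y hxy).2).2
        linarith [hK.1]

end Pool.Agent.H.MP_141b7f_lc
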