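import Pool.Agent.H.MP_141b7f_lc.Rule

set_option autoImplicit false

namespace Pool.Agent.H.MP_141b7f_lc
open MeasureTheory Filter

lemma transport {X : Type*} [MeasurableSpace X] (μ : Measure X) [IsProbabilityMeasure μ]
    (T T' : X → X) (hT : MeasurePreserving T μ μ) (hT' : Measurable T') (hi : ∀ x, T' (T x) = x)
    (F φ : X → ℝ) (hF : Measurable F) (hφ : Measurable φ) (N : ℝ) (bF : ∀ x, |F x| ≤ 2)
    (bφ : ∀ x, |φ x| ≤ N) (h : ∀ᵐ x ∂μ, F x ≠ 0 → |φ x - φ (T x)| ≤ 1) :
    |∫ x, (F x - F (T' x)) * φ x ∂μ| ≤ 2 := by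
  have hint : ∀ G ψ : X → ℝ, Measurable G → Measurable ψ → (∀ x, |G x| ≤ 2) → (∀ x, |ψ x| ≤ N) →
      Integrable (fun x => G x * ψ x) μ := by
    intro G ψ hG hψ bG bψ
    refine Integrable.of_bound (hG.mul hψ).aestronglyMeasurable (2 * N) (ae_of_all _ fun x => ?_)
    rw [Real.norm_eq_abs, abs_mul]
    exact mul_le_mul (bG x) (bψ x) (abs_nonneg _) (by norm_num)
  have i1 := hint F φ hF hφ bF bφ
  have i2 := hint (fun x => F (T' x)) φ (hF.comp hT') hφ (fun x => bF _) bφ
  have i3 := hint F (fun x => φ (T x)) hF (hφ.comp hT.measurable) bF (fun x => bφ _)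
  have e1 : ∫ x, F (T' x) * φ x ∂μ = ∫ x, F x * φ (T x) ∂μ := by
    have := integral_map (μ := μ) (φ := T) hT.measurable.aemeasurable
      (f := fun x => F (T' x) * φ x) (((hF.comp hT').mul hφ).aestronglyMeasurable)
    rw [hT.map_eq] at this
    rw [this]
    simp only [hi]
  have e2 : ∫ x, (F x - F (T' x)) * φ x ∂μ = ∫ x, F x * (φ x - φ (T x)) ∂μ := by
    simp only [sub_mul, mul_sub]
    rw [integral_sub i1 i2, integral_sub i1 i3, e1]
  rw [e2]
  have := norm_integral_le_of_norm_le_const (μ := μ) (f := fun x => F x * (φ x - φ (T x))) (C := 2)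
    (h.mono fun x hx => by
      rw [Real.norm_eq_abs, abs_mul]
      by_cases h0 : F x = 0
      · simp [h0]
      · have := mul_le_mul (bF x) (hx h0) (abs_nonneg _) (by norm_num)
        linarith)
  simpa using this

lemma bdd_of_records (G : ℕ → ℤ) (hG : ∀ m, G m ≤ G (m + 1) + 1) (M : ℕ)
    (h : ∀ m, M ≤ m → ¬ (G (m + 1) < G m ∧ ∀ j ≤ m, G m ≤ G j)) : ∃ b, ∀ m, b ≤ G m := by
  obtain ⟨j0, hj0, hmin⟩ := Finset.exists_min_image (Finset.range (M + 1)) G ⟨0, by simp⟩
  refine ⟨G j0, fun m => ?_⟩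
  induction m using Nat.strong_induction_on with
  | _ m ih =>
  by_cases hm : m ≤ M
  · exact hmin m (by simp; omega)
  obtain ⟨m, rfl⟩ : ∃ m', m = m' + 1 := ⟨m - 1, by omega⟩
  by_contra hc
  have a := hG m
  have b := ih m (by omega)
  exact h m (by omega) ⟨by omega, fun j hj => by have := ih j (by omega); omega⟩

open Classical in
lemma cnt_lip (p q : ℕ → Prop) (h : ∀ k, p (k + 1) → q k) (N : ℕ) :
    ∑ k ∈ Finset.range N, (if p (k + 1) then (1 : ℝ) else 0) ≤
      ∑ k ∈ Finset.range N, (if q (k + 1) then (1 : ℝ) else 0) + 1 := by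
  have h1 : ∑ k ∈ Finset.range N, (if p (k + 1) then (1 : ℝ) else 0) ≤
      ∑ k ∈ Finset.range N, (if q k then (1 : ℝ) else 0) :=
    Finset.sum_le_sum fun k _ => by
      by_cases hp : p (k + 1)
      · simp [hp, h k hp]
      · simp only [hp, if_false]
        split_ifs <;> norm_num
  have h2 : ∑ k ∈ Finset.range N, (if q k then (1 : ℝ) else 0) ≤
      ∑ k ∈ Finset.range (N + 1), (if q k then (1 : ℝ) else 0) := by
    rw [Finset.sum_range_succ]
    split_ifs <;> norm_num
  rw [Finset.sum_range_succ'] at h2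
  have h3 : (if q 0 then (1 : ℝ) else 0) ≤ 1 := by split_ifs <;> norm_num
  linarith

section
variable {X : Type*} [MeasurableSpace X] (a : ℤ → ℤ → X → X) (f : X → Fin 5 → ℤ)

noncomputable def SS (x : X) (k : ℤ) : ℤ := prim (fun j => f (a 0 j x) 1) k

def PP (s : ℤ) (k : ℕ) : Set X := {x | ∀ j : ℕ, j ≤ k → 0 ≤ SS a f x (s * j)}

def Good (x : X) : Prop := ∀ u v, Rule fun i j => f (a (u + i) (v + j) x)

variable {a f}

lemma SS_meas (ha : ∀ i j, Measurable (a i j)) (hf : ∀ t, Measurable fun x => f x t) (k : ℤ) :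
    Measurable fun x => SS a f x k := by
  unfold SS prim
  exact (Finset.measurable_sum _ fun j _ => (hf 1).comp (ha 0 j)).sub
    (Finset.measurable_sum _ fun j _ => (hf 1).comp (ha 0 j))

lemma PP_meas (ha : ∀ i j, Measurable (a i j)) (hf : ∀ t, Measurable fun x => f x t) (s : ℤ)
    (k : ℕ) : MeasurableSet (PP a f s k) := by
  unfold PP
  simp only [Set.setOf_forall]
  exact MeasurableSet.iInter fun j => MeasurableSet.iInter fun _ =>
    measurableSet_le measurable_const (SS_meas ha hf _)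

omit [MeasurableSpace X] in
lemma SS_eq (hadd : ∀ i j i' j' x, a (i + i') (j + j') x = a i j (a i' j' x)) {x : X}
    {H : ℤ → ℤ → ℤ} (hg : ∀ u v, Grad (fun i j => f (a i j x)) H u v) (u v k : ℤ) :
    SS a f (a u v x) k = H u (v + k) - H u v := by
  have := const_of_step (fun k => SS a f (a u v x) k - H u (v + k)) (fun k => by
    have h1 := prim_succ (fun j => f (a 0 j (a u v x)) 1) k
    have h2 := (hg u (v + k)).2
    simp only at h1 h2
    rw [← hadd, zero_add, add_comm k v] at h1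
    unfold SS
    rw [← add_assoc]
    omega) k
  have h0 : SS a f (a u v x) 0 = 0 := prim_zero _
  simp only [add_zero] at this
  omega

omit [MeasurableSpace X] in
lemma PP_iff (hadd : ∀ i j i' j' x, a (i + i') (j + j') x = a i j (a i' j' x)) {x : X}
    {H : ℤ → ℤ → ℤ} (hg : ∀ u v, Grad (fun i j => f (a i j x)) H u v) (s : ℤ) (k : ℕ) (u v : ℤ) :
    a u v x ∈ PP a f s k ↔ St H s k u v := by
  unfold PP St
  simp only [Set.mem_setOf_eq, SS_eq hadd hg, sub_nonneg]

open Classical in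
lemma sum_bound (μ : Measure X) [IsProbabilityMeasure μ] (h0 : ∀ x, a 0 0 x = x)
    (hadd : ∀ i j i' j' x, a (i + i') (j + j') x = a i j (a i' j' x))
    (hmp : ∀ i j, MeasurePreserving (a i j) μ μ)
    (hf : ∀ t, Measurable fun x => f x t) (hb : ∀ x t, |f x t| ≤ 2)
    (h : ∀ᵐ x ∂μ, Good a f x) (s : ℤ) (hs : s = 1 ∨ s = -1) (N : ℕ) :
    ∑ k ∈ Finset.range N, μ.real ({x | SS a f x (-s) < 0} ∩ PP a f s (k + 1)) ≤ 4 := by
  have ha : ∀ i j, Measurable (a i j) := fun i j => (hmp i j).measurable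
  let φ : X → ℝ := fun x => ∑ k ∈ Finset.range N, (if x ∈ PP a f s (k + 1) then (1 : ℝ) else 0)
  have hφ : Measurable φ := Finset.measurable_sum _ fun k _ =>
    Measurable.ite (PP_meas ha hf s _) measurable_const measurable_const
  have bφ : ∀ x, |φ x| ≤ N := by
    intro x
    refine (Finset.abs_sum_le_sum_abs _ _).trans ?_
    refine (Finset.sum_le_card_nsmul _ _ 1 fun k _ => by split_ifs <;> norm_num).trans ?_
    simp
  have hF : ∀ t, Measurable fun x => (f x t : ℝ) := fun t =>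
    (measurable_of_countable (fun z : ℤ => (z : ℝ))).comp (hf t)
  have bF : ∀ t x, |(f x t : ℝ)| ≤ 2 := fun t x => by exact_mod_cast hb x t
  have t1 := transport μ (a 1 0) (a (-1) 0) (hmp 1 0) (ha _ _)
    (fun x => by rw [← hadd]; simpa using h0 x) (fun x => (f x 2 : ℝ)) φ (hF 2) hφ N (bF 2) bφ
    (h.mono fun x hx hne => by
      obtain ⟨H, hg, hl⟩ := glob (fun i j => f (a i j x)) hx
      have e0 : H 1 0 = H 0 0 := by
        have h1 := (hl 0 0).f0
        have h2 := (hg 0 0).1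
        simp only [h0, zero_add] at h1 h2
        by_contra hc
        exact hne (by rw [h1 (by omega)]; simp)
      have p0 : ∀ k, x ∈ PP a f s k ↔ St H s k 0 0 := fun k => by
        rw [← PP_iff hadd hg, h0]
      have c1 := cnt_lip (fun k => x ∈ PP a f s k) (fun k => a 1 0 x ∈ PP a f s k) (fun k hk => by
        rw [PP_iff hadd hg]
        exact St_hor hg hl s hs k 0 1 0 (Or.inl (by norm_num)) e0 ((p0 _).1 hk)) N
      have c2 := cnt_lip (fun k => a 1 0 x ∈ PP a f s k) (fun k => x ∈ PP a f s k) (fun k hk => by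
        rw [PP_iff hadd hg] at hk
        exact (p0 _).2 (St_hor hg hl s hs k 1 0 0 (Or.inr (by norm_num)) e0.symm hk)) N
      rw [abs_le]
      constructor <;> simp only [φ] <;> linarith)
  have t2 := transport μ (a 0 1) (a 0 (-1)) (hmp 0 1) (ha _ _)
    (fun x => by rw [← hadd]; simpa using h0 x) (fun x => (f x 3 : ℝ)) φ (hF 3) hφ N (bF 3) bφ
    (h.mono fun x hx hne => by
      obtain ⟨H, hg, hl⟩ := glob (fun i j => f (a i j x)) hx
      have e0 : H 0 1 = H 0 0 := by
        have h1 := (hl 0 0).f1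
        have h2 := (hg 0 0).2
        simp only [h0, zero_add] at h1 h2
        by_contra hc
        exact hne (by rw [h1 (by omega)]; simp)
      have p0 : ∀ k, x ∈ PP a f s k ↔ St H s k 0 0 := fun k => by
        rw [← PP_iff hadd hg, h0]
      have c1 := cnt_lip (fun k => x ∈ PP a f s k) (fun k => a 0 1 x ∈ PP a f s k) (fun k hk => by
        rw [PP_iff hadd hg]
        exact St_ver s hs k 0 0 1 (Or.inl (by norm_num)) e0 ((p0 _).1 hk)) N
      have c2 := cnt_lip (fun k => a 0 1 x ∈ PP a f s k) (fun k => x ∈ PP a f s k) (fun k hk => by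
        rw [PP_iff hadd hg] at hk
        exact (p0 _).2 (St_ver s hs k 0 1 0 (Or.inr (by norm_num)) e0.symm hk)) N
      rw [abs_le]
      constructor <;> simp only [φ] <;> linarith)
  have hint : ∀ G : X → ℝ, Measurable G → (∀ x, |G x| ≤ 4) → Integrable (fun x => G x * φ x) μ := by
    intro G hG bG
    refine Integrable.of_bound (hG.mul hφ).aestronglyMeasurable (4 * N) (ae_of_all _ fun x => ?_)
    rw [Real.norm_eq_abs, abs_mul]
    exact mul_le_mul (bG x) (bφ x) (abs_nonneg _) (by norm_num)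
  have b4 : ∀ t x y, |(f x t : ℝ) - f y t| ≤ 4 := fun t x y => by
    have := abs_sub (f x t : ℝ) (f y t)
    have := bF t x
    have := bF t y
    linarith
  have i1 := hint (fun x => (f x 2 : ℝ) - f (a (-1) 0 x) 2) ((hF 2).sub ((hF 2).comp (ha (-1) 0))) fun x => b4 2 x _
  have i2 := hint (fun x => (f x 3 : ℝ) - f (a 0 (-1) x) 3) ((hF 3).sub ((hF 3).comp (ha 0 (-1)))) fun x => b4 3 x _
  have hTm : MeasurableSet {x | SS a f x (-s) < 0} :=
    measurableSet_lt (SS_meas ha hf _) measurable_const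
  have e1 : ∑ k ∈ Finset.range N, μ.real ({x | SS a f x (-s) < 0} ∩ PP a f s (k + 1)) =
      ∫ x, ∑ k ∈ Finset.range N, ({x | SS a f x (-s) < 0} ∩ PP a f s (k + 1)).indicator
        (fun _ => (1 : ℝ)) x ∂μ := by
    rw [integral_finset_sum _ fun k _ =>
      (integrable_const (1 : ℝ)).indicator (hTm.inter (PP_meas ha hf s _))]
    exact Finset.sum_congr rfl fun k _ =>
      (integral_indicator_one (hTm.inter (PP_meas ha hf s _))).symm
  have e2 : ∫ x, ∑ k ∈ Finset.range N, ({x | SS a f x (-s) < 0} ∩ PP a f s (k + 1)).indicator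
        (fun _ => (1 : ℝ)) x ∂μ = ∫ x, (-s : ℝ) * ((((f x 2 : ℝ) - f (a (-1) 0 x) 2)) * φ x +
          ((f x 3 : ℝ) - f (a 0 (-1) x) 3) * φ x) ∂μ := by
    refine integral_congr_ae (h.mono fun x hx => ?_)
    obtain ⟨H, hg, hl⟩ := glob (fun i j => f (a i j x)) hx
    have hd := (hl 0 0).dv
    have hS : ∀ k, SS a f x k = H 0 k - H 0 0 := fun k => by
      have := SS_eq hadd hg 0 0 k
      rwa [h0, zero_add] at this
    simp only [h0, zero_add, zero_sub] at hd
    have hd' : ((f x 2 : ℝ) - f (a (-1) 0 x) 2) + ((f x 3 : ℝ) - f (a 0 (-1) x) 3) =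
        (if H 0 1 < H 0 0 then 1 else 0) - (if H 0 (-1) < H 0 0 then 1 else 0) := by
      have := congrArg (fun z : ℤ => (z : ℝ)) hd
      push_cast at this
      linarith
    have hz : H 0 s < H 0 0 → φ x = 0 := by
      intro hlt
      refine Finset.sum_eq_zero fun k _ => if_neg fun hk => ?_
      have := hk 1 (by omega)
      rw [hS] at this
      simp only [Nat.cast_one, mul_one] at this
      omega
    have hL : ∑ k ∈ Finset.range N, ({x | SS a f x (-s) < 0} ∩ PP a f s (k + 1)).indicator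
        (fun _ => (1 : ℝ)) x = (if H 0 (-s) < H 0 0 then 1 else 0) * φ x := by
      simp only [φ, Finset.mul_sum]
      refine Finset.sum_congr rfl fun k _ => ?_
      simp only [Set.indicator, Set.mem_inter_iff, Set.mem_setOf_eq, hS, sub_neg]
      by_cases h1 : H 0 (-s) < H 0 0 <;> by_cases h2 : x ∈ PP a f s (k + 1) <;> simp [h1, h2]
    simp only
    rw [hL, ← add_mul, hd']
    rcases hs with rfl | rfl
    · by_cases h1 : H 0 1 < H 0 0
      · rw [hz h1]; simp
      · by_cases h2 : H 0 (-1) < H 0 0 <;> simp [h1, h2]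
    · by_cases h1 : H 0 (-1) < H 0 0
      · rw [hz h1]; simp
      · simp [h1]
  rw [e1, e2, integral_const_mul, integral_add i1 i2]
  have a1 := abs_le.1 t1
  have a2 := abs_le.1 t2
  rcases hs with rfl | rfl <;> push_cast <;> linarith [a1.1, a1.2, a2.1, a2.2]

lemma ray_bdd (μ : Measure X) [IsProbabilityMeasure μ] (h0 : ∀ x, a 0 0 x = x)
    (hadd : ∀ i j i' j' x, a (i + i') (j + j') x = a i j (a i' j' x))
    (hmp : ∀ i j, MeasurePreserving (a i j) μ μ)
    (hf : ∀ t, Measurable fun x => f x t) (hb : ∀ x t, |f x t| ≤ 2)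
    (h : ∀ᵐ x ∂μ, Good a f x) (s : ℤ) (hs : s = 1 ∨ s = -1) :
    ∀ᵐ x ∂μ, ∃ b, ∀ m : ℕ, b ≤ SS a f x (-s * m) := by
  have ha : ∀ i j, Measurable (a i j) := fun i j => (hmp i j).measurable
  have hTm : MeasurableSet {x | SS a f x (-s) < 0} :=
    measurableSet_lt (SS_meas ha hf _) measurable_const
  let E : ℕ → Set X := fun k => a 0 (-s * (k + 1 : ℕ)) ⁻¹'
    ({x | SS a f x (-s) < 0} ∩ PP a f s (k + 1))
  have hE : ∑' k, μ (E k) ≠ ⊤ := by
    refine ne_top_of_le_ne_top (ENNReal.ofReal_ne_top (r := 4))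
      (ENNReal.tsum_le_of_sum_range_le fun N => ?_)
    have := sum_bound μ h0 hadd hmp hf hb h s hs N
    refine le_trans (le_of_eq ?_) (ENNReal.ofReal_le_ofReal this)
    rw [ENNReal.ofReal_sum_of_nonneg fun k _ => measureReal_nonneg]
    refine Finset.sum_congr rfl fun k _ => ?_
    rw [ofReal_measureReal]
    exact (hmp _ _).measure_preimage (hTm.inter (PP_meas ha hf s _)).nullMeasurableSet
  filter_upwards [h, ae_eventually_notMem hE] with x hx hev
  obtain ⟨H, hg, hl⟩ := glob (fun i j => f (a i j x)) hx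
  obtain ⟨M, hM⟩ := eventually_atTop.1 hev
  have hS : ∀ k, SS a f x k = H 0 k - H 0 0 := fun k => by
    have := SS_eq hadd hg 0 0 k
    rwa [h0, zero_add] at this
  have hv : ∀ x y, |H x (y + 1) - H x y| ≤ 1 := fun x y => by
    rw [(hg x y).2]; exact (hl x y).l1
  obtain ⟨b, hb⟩ := bdd_of_records (fun m => H 0 (-s * m)) (fun m => by
    push_cast
    rcases hs with rfl | rfl
    · have := abs_le.1 (hv 0 (-1 * ((m : ℤ) + 1)))
      rw [show -1 * ((m : ℤ) + 1) + 1 = -1 * m by ring] at this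
      omega
    · have := abs_le.1 (hv 0 (- -1 * (m : ℤ)))
      rw [show - -1 * (m : ℤ) + 1 = - -1 * (m + 1) by ring] at this
      omega) (M + 1) (fun m hm hc => by
    obtain ⟨m, rfl⟩ : ∃ m', m = m' + 1 := ⟨m - 1, by omega⟩
    refine hM m (by omega) ⟨?_, ?_⟩
    · simp only [Set.mem_setOf_eq, SS_eq hadd hg, sub_neg]
      convert hc.1 using 2
      push_cast
      ring
    · rw [PP_iff hadd hg]
      intro j hj
      convert hc.2 (m + 1 - j) (by omega) using 2
      rw [Nat.cast_sub hj]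
      ring)
  exact ⟨b - H 0 0, fun m => by rw [hS]; have := hb m; omega⟩

theorem no_meas (μ : Measure X) [IsProbabilityMeasure μ] (h0 : ∀ x, a 0 0 x = x)
    (hadd : ∀ i j i' j' x, a (i + i') (j + j') x = a i j (a i' j' x))
    (hmp : ∀ i j, MeasurePreserving (a i j) μ μ) (herg : Ergodic (a 0 2) μ)
    (hf : ∀ t, Measurable fun x => f x t) (hb : ∀ x t, |f x t| ≤ 2)
    (h : ∀ᵐ x ∂μ, Rule fun i j => f (a i j x)) : False := by
  have ha : ∀ i j, Measurable (a i j) := fun i j => (hmp i j).measurable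
  have hG : ∀ᵐ x ∂μ, Good a f x := by
    unfold Good
    refine ae_all_iff.2 fun u => ae_all_iff.2 fun v => ?_
    filter_upwards [(hmp u v).quasiMeasurePreserving.ae h] with x hx
    convert hx using 4
    rw [← hadd, add_comm u, add_comm v]
  have hB : ∀ᵐ x ∂μ, ∃ b, ∀ k : ℤ, b ≤ SS a f x k := by
    filter_upwards [ray_bdd μ h0 hadd hmp hf hb hG 1 (Or.inl rfl),
      ray_bdd μ h0 hadd hmp hf hb hG (-1) (Or.inr rfl)] with x ⟨b, hb⟩ ⟨c, hc⟩
    refine ⟨min b c, fun k => ?_⟩
    rcases le_total 0 k with hk | hk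
    · have := hc k.toNat
      rw [show - -1 * (k.toNat : ℤ) = k by omega] at this
      exact (min_le_right _ _).trans this
    · have := hb (-k).toNat
      rw [show -1 * ((-k).toNat : ℤ) = k by omega] at this
      exact (min_le_left _ _).trans this
  have hB' : ∀ᵐ x ∂μ, ∀ u : ℤ, ∃ b, ∀ k : ℤ, b ≤ SS a f (a u 0 x) k :=
    ae_all_iff.2 fun u => (hmp u 0).quasiMeasurePreserving.ae hB
  let A : Set X := {x | ∃ k : ℤ, (∀ j, SS a f x k ≤ SS a f x j) ∧ Even (f (a 0 k x) 4 - k)}
  have hA : MeasurableSet A := by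
    simp only [A, Set.setOf_exists, Set.setOf_and, Set.setOf_forall]
    refine MeasurableSet.iUnion fun k => MeasurableSet.inter (MeasurableSet.iInter fun j =>
      measurableSet_le (SS_meas ha hf _) (SS_meas ha hf _)) ?_
    exact ((hf 4).comp (ha 0 k)) (MeasurableSet.of_discrete (s := {z : ℤ | Even (z - k)}))
  have hflip : ∀ᵐ x ∂μ, (a 0 1 x ∈ A ↔ x ∉ A) := by
    filter_upwards [hG, hB'] with x hx hbx
    obtain ⟨H, hg, hl⟩ := glob (fun i j => f (a i j x)) hx
    have hmin : ∀ u, ∃ y, ∀ y', H u y ≤ H u y' := by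
      intro u
      obtain ⟨b, hb⟩ := hbx u
      obtain ⟨m, ⟨y, rfl⟩, hy⟩ := Int.exists_least_of_bdd (P := fun m => ∃ y, H u y = m)
        ⟨b + H u 0, by
          rintro _ ⟨y, rfl⟩
          have := hb y
          rw [SS_eq hadd hg, zero_add] at this
          omega⟩ ⟨_, 0, rfl⟩
      exact ⟨y, fun y' => hy _ ⟨y', rfl⟩⟩
    obtain ⟨y, hy⟩ := hmin 0
    have hη := glob_min hg hl hmin 0 y hy
    have hc : ∀ k, H 0 k = H 0 y → Even (f (a 0 k x) 4 - f (a 0 y x) 4 - (k - y)) := by
      intro k hk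
      rcases le_total y k with hyk | hyk
      · have := col_min hg hl _ hη (k - y).toNat 0 y rfl (by rw [← hk]; congr 1; omega)
        rwa [Int.toNat_of_nonneg (by omega), add_sub_cancel] at this
      · have := col_min hg hl _ hη (y - k).toNat 0 k hk (by congr 1; omega)
        rw [Int.toNat_of_nonneg (by omega), add_sub_cancel] at this
        obtain ⟨r, hr⟩ := this
        exact ⟨-r, by omega⟩
    have hA' : ∀ v, a 0 v x ∈ A ↔ Even (f (a 0 y x) 4 - y + v) := by
      intro v
      simp only [A, Set.mem_setOf_eq, SS_eq hadd hg, ← hadd, add_zero]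
      constructor
      · rintro ⟨k, h1, r, hr⟩
        have h2 := h1 (y - v)
        rw [add_sub_cancel] at h2
        have h3 := hy (v + k)
        obtain ⟨q, hq⟩ := hc (v + k) (by omega)
        rw [add_comm k v] at hr
        exact ⟨r - q, by omega⟩
      · rintro ⟨r, hr⟩
        refine ⟨y - v, fun j => ?_, r, ?_⟩
        · rw [add_sub_cancel]
          have := hy (v + j)
          omega
        · rw [sub_add_cancel]
          omega
    have h1 := hA' 0
    rw [h0] at h1
    rw [hA' 1, h1, add_zero, Int.even_add_one]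
  have hinv : a 0 2 ⁻¹' A =ᵐ[μ] A := by
    filter_upwards [hflip, (hmp 0 1).quasiMeasurePreserving.ae hflip] with x h1 h2
    rw [← hadd] at h2
    apply propext
    change a 0 2 x ∈ A ↔ x ∈ A
    norm_num at h2
    tauto
  rcases herg.quasiErgodic.ae_mem_or_ae_notMem₀ hA.nullMeasurableSet hinv with h1 | h1
  · obtain ⟨x, hx⟩ := (hflip.and (h1.and ((hmp 0 1).quasiMeasurePreserving.ae h1))).exists
    tauto
  · obtain ⟨x, hx⟩ := (hflip.and (h1.and ((hmp 0 1).quasiMeasurePreserving.ae h1))).exists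
    tauto

end

end Pool.Agent.H.MP_141b7f_lc
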