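import Pool.Agent.H.MP_141b7f_lc.Stream
import Pool.Agent.H.MP_141b7f_lc.Meas

set_option autoImplicit false

namespace Pool.Agent.H.MP_141b7f_lc

def shift (ζ : Zc) (u v : ℤ) : Zc := fun j x y => ζ j (x + u) (y + v)

def trunc (k : ℕ) (ζ : Zc) : Zc := fun j x y => j < k ∧ |x| + |y| ≤ 2 * pD k + 2 ∧ ζ j x y

lemma shift_shift (ζ : Zc) (u v a b : ℤ) : shift (shift ζ u v) a b = shift ζ (a + u) (b + v) := by
  funext j x y
  simp only [shift, add_assoc]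

lemma Sep.shift {ζ : Zc} (h : Sep ζ) (a b : ℤ) : Sep (shift ζ a b) := by
  intro j u v u' v' h1 h2 h3
  have := h j _ _ _ _ h1 h2 (by simpa using h3)
  omega

lemma Sep.trunc {ζ : Zc} (h : Sep ζ) (k : ℕ) : Sep (trunc k ζ) :=
  fun j u v u' v' h1 h2 h3 => h j u v u' v' h1.2.2 h2.2.2 h3

open Classical in
noncomputable def sh0 (k : ℕ) (ζ : Zc) : ℤ → ℤ → Prop :=
  if h : Sep ζ then (ex_shape k ζ h).choose else fun _ _ => False

open Classical in
noncomputable def ps0 (k : ℕ) (ζ : Zc) : ℤ → ℤ → ℤ :=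
  if h : Sep ζ then (ex_strm k ζ h).choose else fun _ _ => 0

lemma sh_spec (k : ℕ) {ζ : Zc} (h : Sep ζ) : Shape k ζ (sh0 k (trunc k ζ)) := by
  have h1 : Shape k (trunc k ζ) (sh0 k (trunc k ζ)) := by
    unfold sh0
    rw [dif_pos (h.trunc k)]
    exact (ex_shape k _ (h.trunc k)).choose_spec
  refine ⟨h1.r2, h1.st, h1.sb, h1.inn, h1.out, fun j hj u v hz => ?_⟩
  by_cases hb : |u| + |v| ≤ 2 * pD k + 2
  · exact h1.side j hj u v ⟨hj, hb, hz⟩
  · refine Or.inr fun x y hxy hK => hb ?_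
    have h2 := h1.out x y hK
    have h3 := pa_le_pD hj
    have h4 := abs_sub x (x - u)
    have h5 := abs_sub y (y - v)
    rw [sub_sub_cancel] at h4 h5
    omega

lemma ps_spec (k : ℕ) {ζ : Zc} (h : Sep ζ) : Strm k (trunc k ζ) (ps0 k (trunc k ζ)) := by
  unfold ps0
  rw [dif_pos (h.trunc k)]
  exact (ex_strm k _ (h.trunc k)).choose_spec

lemma ps0_lip (k : ℕ) (ζ : Zc) (x y : ℤ) :
    |ps0 k ζ (x + 1) y - ps0 k ζ x y| ≤ 2 ∧ |ps0 k ζ x (y + 1) - ps0 k ζ x y| ≤ 2 := by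
  unfold ps0
  split_ifs with h
  · exact (ex_strm k ζ h).choose_spec.lip x y
  · simp

abbrev Ix := ℕ × ℤ × ℤ

def In (ζ : Zc) (q : Ix) (x y : ℤ) : Prop :=
  ζ q.1 q.2.1 q.2.2 ∧ sh0 q.1 (trunc q.1 (shift ζ q.2.1 q.2.2)) (x - q.2.1) (y - q.2.2)

noncomputable def PS (ζ : Zc) (q : Ix) (x y : ℤ) : ℤ :=
  ps0 q.1 (trunc q.1 (shift ζ q.2.1 q.2.2)) (x - q.2.1) (y - q.2.2)

def Own (ζ : Zc) (q : Ix) (x y : ℤ) : Prop := In ζ q x y ∧ ∀ q', In ζ q' x y → q.1 ≤ q'.1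

lemma own_ex (ζ : Zc) : ∃ m : ℕ, Own ζ (Denumerable.ofNat Ix m) 0 0 ∨ ¬ ∃ q, Own ζ q 0 0 := by
  by_cases h : ∃ q, Own ζ q 0 0
  · obtain ⟨q, hq⟩ := h
    exact ⟨Encodable.encode q, Or.inl (by rwa [Denumerable.ofNat_encode])⟩
  · exact ⟨0, Or.inr h⟩

open Classical in
noncomputable def own (ζ : Zc) : Ix := Denumerable.ofNat Ix (Nat.find (own_ex ζ))

def dd (k k' : ℕ) : ℤ := if k' < k then 1 else if k < k' then -1 else 0

noncomputable def lab0 (q : Ix) (k1 k2 : ℕ) (P : ℤ → ℤ → ℤ) (x y : ℤ) : Fin 5 → ℤ :=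
  ![dd q.1 k1, dd q.1 k2, if dd q.1 k1 = 0 then P x y - P x (y - 1) else 0,
    if dd q.1 k2 = 0 then P (x - 1) y - P x y else 0, (y - q.2.2) % 2]

noncomputable def lab (ζ : Zc) : Fin 5 → ℤ :=
  lab0 (own ζ) (own (shift ζ 1 0)).1 (own (shift ζ 0 1)).1 (PS ζ (own ζ)) 0 0

lemma dd_bd (k k' : ℕ) : |dd k k'| ≤ 1 := by
  unfold dd
  split_ifs <;> norm_num

lemma lab_bd (ζ : Zc) (t : Fin 5) : |lab ζ t| ≤ 2 := by
  unfold lab lab0
  have h1 := (ps0_lip (own ζ).1 (trunc (own ζ).1 (shift ζ (own ζ).2.1 (own ζ).2.2))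
    (0 - (own ζ).2.1) (0 - 1 - (own ζ).2.2)).2
  have h2 := (ps0_lip (own ζ).1 (trunc (own ζ).1 (shift ζ (own ζ).2.1 (own ζ).2.2))
    (0 - 1 - (own ζ).2.1) (0 - (own ζ).2.2)).1
  rw [show 0 - 1 - (own ζ).2.2 + 1 = 0 - (own ζ).2.2 by ring] at h1
  rw [show 0 - 1 - (own ζ).2.1 + 1 = 0 - (own ζ).2.1 by ring, abs_sub_comm] at h2
  fin_cases t
  · exact (dd_bd _ _).trans (by norm_num)
  · exact (dd_bd _ _).trans (by norm_num)
  · simp only [Fin.reduceFinMk, Matrix.cons_val]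
    split_ifs
    · exact h1
    · norm_num
  · simp only [Fin.reduceFinMk, Matrix.cons_val]
    split_ifs
    · exact h2
    · norm_num
  · simp only [Fin.reduceFinMk, Matrix.cons_val]
    rw [abs_le]
    omega

/-! measurability -/

lemma shift_meas (u v : ℤ) : Measurable fun ζ : Zc => shift ζ u v := by
  unfold shift
  fun_prop

lemma trunc_meas {β : Type} [MeasurableSpace β] (k : ℕ) (Φ : Zc → β) :
    Measurable fun ζ => Φ (trunc k ζ) := by
  let F := {p : ℕ × ℤ × ℤ // p.1 < k ∧ |p.2.1| + |p.2.2| ≤ 2 * pD k + 2}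
  haveI : Finite F := by
    refine Set.Finite.to_subtype (Set.Finite.subset ((Set.finite_Iio k).prod
      ((Set.finite_Icc (-(2 * pD k + 2 : ℤ)) (2 * pD k + 2)).prod
        (Set.finite_Icc (-(2 * pD k + 2 : ℤ)) (2 * pD k + 2)))) ?_)
    rintro ⟨j, x, y⟩ ⟨h1, h2⟩
    have := abs_nonneg x
    have := abs_nonneg y
    simp only at h1 h2
    exact ⟨h1, abs_le.1 (show |x| ≤ _ by omega), abs_le.1 (show |y| ≤ _ by omega)⟩
  let res : Zc → F → Prop := fun ζ p => ζ p.1.1 p.1.2.1 p.1.2.2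
  let ex : (F → Prop) → Zc := fun w j x y =>
    ∃ h : j < k ∧ |x| + |y| ≤ 2 * pD k + 2, w ⟨(j, x, y), h⟩
  have hres : Measurable res := by
    simp only [res]
    fun_prop
  have he : (fun ζ => Φ (trunc k ζ)) = (fun w => Φ (ex w)) ∘ res := by
    funext ζ
    simp only [Function.comp]
    congr 1
    funext j x y
    simp only [trunc, ex, res, exists_prop, and_assoc]
  rw [he]
  exact Measurable.of_discrete.comp hres

lemma In_meas (q : Ix) (x y : ℤ) : Measurable fun ζ => In ζ q x y := by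
  unfold In
  refine Measurable.and (by fun_prop) ?_
  exact (trunc_meas q.1 fun ζ => sh0 q.1 ζ (x - q.2.1) (y - q.2.2)).comp (shift_meas _ _)

lemma PS_meas (q : Ix) (x y : ℤ) : Measurable fun ζ => PS ζ q x y :=
  (trunc_meas q.1 fun ζ => ps0 q.1 ζ (x - q.2.1) (y - q.2.2)).comp (shift_meas _ _)

lemma Own_meas (q : Ix) (x y : ℤ) : Measurable fun ζ => Own ζ q x y :=
  (In_meas q x y).and (Measurable.forall fun q' => (In_meas q' x y).imp measurable_const)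

lemma own_meas : Measurable own := by
  classical
  unfold own
  refine (Measurable.of_discrete (f := Denumerable.ofNat Ix)).comp
    (measurable_find own_ex fun m => Measurable.setOf ?_)
  exact (Own_meas _ 0 0).or (Measurable.exists fun q => Own_meas q 0 0).not

lemma lab_meas (t : Fin 5) : Measurable fun ζ => lab ζ t := by
  have h : Measurable fun p : Zc × Ix × ℕ × ℕ =>
      lab0 p.2.1 p.2.2.1 p.2.2.2 (PS p.1 p.2.1) 0 0 t := by
    refine measurable_from_prod_countable_left fun ⟨q, k1, k2⟩ => ?_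
    unfold lab0
    fin_cases t
    · simp only [Fin.zero_eta, Matrix.cons_val]
      exact measurable_const
    · simp only [Fin.mk_one, Matrix.cons_val]
      exact measurable_const
    · simp only [Fin.reduceFinMk, Matrix.cons_val]
      split_ifs
      · exact (PS_meas q _ _).sub (PS_meas q _ _)
      · exact measurable_const
    · simp only [Fin.reduceFinMk, Matrix.cons_val]
      split_ifs
      · exact (PS_meas q _ _).sub (PS_meas q _ _)
      · exact measurable_const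
    · simp only [Fin.reduceFinMk, Matrix.cons_val]
      exact measurable_const
  have h2 : Measurable fun ζ : Zc => ((ζ, own ζ, (own (shift ζ 1 0)).1, (own (shift ζ 0 1)).1) :
      Zc × Ix × ℕ × ℕ) := by
    have a1 : Measurable fun ζ : Zc => own (shift ζ 1 0) := own_meas.comp (shift_meas 1 0)
    have a2 : Measurable fun ζ : Zc => own (shift ζ 0 1) := own_meas.comp (shift_meas 0 1)
    exact measurable_id'.prodMk (own_meas.prodMk (a1.fst.prodMk a2.fst))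
  have h3 := h.comp h2
  simp only [Function.comp_def] at h3
  unfold lab
  exact h3

/-! geometry -/

lemma In_shift (ζ : Zc) (u v : ℤ) (q : Ix) (x y : ℤ) :
    In (shift ζ u v) q x y ↔ In ζ (q.1, q.2.1 + u, q.2.2 + v) (x + u) (y + v) := by
  unfold In
  simp only [shift_shift, add_sub_add_right_eq_sub]
  rfl

lemma PS_shift (ζ : Zc) (u v : ℤ) (q : Ix) (x y : ℤ) :
    PS (shift ζ u v) q x y = PS ζ (q.1, q.2.1 + u, q.2.2 + v) (x + u) (y + v) := by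
  unfold PS
  simp only [shift_shift, add_sub_add_right_eq_sub]

lemma near {x y a b x' y' m n : ℤ} (h1 : |x - a| + |y - b| ≤ m) (h2 : |x' - x| + |y' - y| ≤ n) :
    |x' - a| + |y' - b| ≤ m + n := by
  have := abs_sub_le x' x a
  have := abs_sub_le y' y b
  omega

lemma near_symm {x y a b m : ℤ} (h1 : |x - a| + |y - b| ≤ m) : |a - x| + |b - y| ≤ m := by
  rwa [abs_sub_comm a, abs_sub_comm b]

lemma wd {x y x' y' : ℤ} (h1 : |x| + |y| ≤ 10) (h2 : |x'| + |y'| ≤ 10) :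
    |x' - x| + |y' - y| ≤ 20 := by
  have := abs_sub x' x
  have := abs_sub y' y
  omega

lemma sh2 (x y u v a b : ℤ) :
    |x + a - (u + a)| + |y + b - (v + b)| = |x - u| + |y - v| := by
  rw [add_sub_add_right_eq_sub, add_sub_add_right_eq_sub]

variable {ζ : Zc}

lemma In.out (hζ : Sep ζ) {q : Ix} {x y : ℤ} (h : In ζ q x y) :
    |x - q.2.1| + |y - q.2.2| ≤ pD q.1 :=
  (sh_spec q.1 (hζ.shift _ _)).out _ _ h.2

lemma In_side (hζ : Sep ζ) (q : Ix) {j : ℕ} {u v : ℤ} (hj : j < q.1) (hz : ζ j u v) :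
    (∀ x y : ℤ, |x - u| + |y - v| ≤ pa j → In ζ q x y) ∨
      ∀ x y : ℤ, |x - u| + |y - v| ≤ pa j → ¬ In ζ q x y := by
  by_cases hq : ζ q.1 q.2.1 q.2.2
  · rcases (sh_spec q.1 (hζ.shift q.2.1 q.2.2)).side j hj (u - q.2.1) (v - q.2.2)
      (by simpa [shift] using hz) with h | h
    · exact Or.inl fun x y hxy => ⟨hq, h _ _ (by simpa using hxy)⟩
    · exact Or.inr fun x y hxy hI => h _ _ (by simpa using hxy) hI.2
  · exact Or.inr fun x y _ hI => hq hI.1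

lemma In.same (hζ : Sep ζ) {q q' : Ix} {x y x' y' : ℤ} (h : In ζ q x y) (h' : In ζ q' x' y')
    (hk : q.1 = q'.1) (hd : |x - x'| + |y - y'| ≤ 20) : q = q' := by
  have h1 := h.out hζ
  have h2 := h'.out hζ
  obtain ⟨k, a, b⟩ := q
  obtain ⟨k', a', b'⟩ := q'
  simp only at hk h1 h2
  subst hk
  have h3 := pa_lt_pr k
  have h4 := pD_le_pW k
  unfold pa at h3
  obtain ⟨rfl, rfl⟩ := hζ k a b a' b' h.1 h'.1 (by
    have := near (near h2 hd) (near_symm h1)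
    omega)
  rfl

lemma own_eq (hζ : Sep ζ) {q : Ix} {x y : ℤ} (h : Own ζ q x y) :
    own (shift ζ x y) = (q.1, q.2.1 - x, q.2.2 - y) := by
  classical
  have h1 : Own (shift ζ x y) (q.1, q.2.1 - x, q.2.2 - y) 0 0 := by
    refine ⟨by rw [In_shift]; simpa using h.1, fun q' hq' => ?_⟩
    rw [In_shift] at hq'
    rw [zero_add, zero_add] at hq'
    exact h.2 (q'.1, q'.2.1 + x, q'.2.2 + y) hq'
  rcases Nat.find_spec (own_ex (shift ζ x y)) with h2 | h2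
  · exact In.same (hζ.shift x y) h2.1 h1.1 (le_antisymm (h2.2 _ h1.1) (h1.2 _ h2.1)) (by simp)
  · exact absurd ⟨_, h1⟩ h2

lemma lab_eq (hζ : Sep ζ) {q q1 q2 : Ix} {x y : ℤ} (h : Own ζ q x y) (h1 : Own ζ q1 (x + 1) y)
    (h2 : Own ζ q2 x (y + 1)) : lab (shift ζ x y) = lab0 q q1.1 q2.1 (PS ζ q) x y := by
  unfold lab
  rw [shift_shift, shift_shift, zero_add, zero_add, add_comm 1 x, add_comm 1 y, own_eq hζ h,
    own_eq hζ h1, own_eq hζ h2]
  unfold lab0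
  simp only [PS_shift, sub_add_cancel, zero_add, zero_sub, neg_add_eq_sub, neg_sub]

lemma PS_ext (hζ : Sep ζ) {q : Ix} {x y x1 y1 x2 y2 : ℤ} (h1 : In ζ q x1 y1) (h2 : ¬ In ζ q x2 y2)
    (d1 : |x1 - x| + |y1 - y| ≤ 20) (d2 : |x2 - x| + |y2 - y| ≤ 20) : PS ζ q x y = x - q.2.1 := by
  refine (ps_spec q.1 (hζ.shift q.2.1 q.2.2)).ext _ _ fun j hj u v hz => ?_
  by_contra hc
  have hc' : |x - (u + q.2.1)| + |y - (v + q.2.2)| ≤ pW j := by
    rw [← sh2 _ _ u v q.2.1 q.2.2, sub_add_cancel, sub_add_cancel] at hc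
    exact not_lt.1 hc
  rcases In_side hζ q hj hz.2.2 with h | h
  · exact h2 (h _ _ (by unfold pa; exact_mod_cast near hc' d2))
  · exact h _ _ (by unfold pa; exact_mod_cast near hc' d1) h1

lemma PS_flat (hζ : Sep ζ) {q0 q1 : Ix} (hk : q0.1 < q1.1) (h0 : ζ q0.1 q0.2.1 q0.2.2)
    (hd : |q0.2.1 - q1.2.1| + |q0.2.2 - q1.2.2| ≤ 2 * pD q1.1 + 2) :
    ∃ c, ∀ x y, In ζ q0 x y ∨ In ζ q0 (x + 1) y ∨ In ζ q0 x (y + 1) ∨ In ζ q0 (x + 1) (y + 1) →
      PS ζ q1 x y = c := by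
  obtain ⟨c, hc⟩ := (ps_spec q1.1 (hζ.shift q1.2.1 q1.2.2)).flat q0.1 hk (q0.2.1 - q1.2.1)
    (q0.2.2 - q1.2.2) ⟨hk, hd, by simpa [shift] using h0⟩
    (fun x y => In ζ q0 (x + q1.2.1) (y + q1.2.2) ∨ In ζ q0 (x + q1.2.1 + 1) (y + q1.2.2) ∨
      In ζ q0 (x + q1.2.1) (y + q1.2.2 + 1) ∨ In ζ q0 (x + q1.2.1 + 1) (y + q1.2.2 + 1))
    (fun j hj u v hz => by
      rcases In_side hζ q0 hj hz.2.2 with h | h
      · exact Or.inl fun x y hxy => Or.inl (h _ _ (by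
          rw [sh2]; unfold pa; omega))
      · refine Or.inr fun x y hxy hI => ?_
        rw [← sh2 _ _ u v q1.2.1 q1.2.2] at hxy
        rcases hI with hI | hI | hI | hI <;>
          exact h _ _ (by unfold pa; exact_mod_cast near (n := 20) hxy (by simp)) hI)
    (fun x y hI => by
      rw [← sh2 _ _ _ _ q1.2.1 q1.2.2, sub_add_cancel, sub_add_cancel]
      rcases hI with hI | hI | hI | hI <;> exact near (n := 2) (hI.out hζ) (by simp))
  exact ⟨c, fun x y h => hc _ _ (by simpa using h)⟩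

lemma window (hζ : Sep ζ) (hc : ∀ x y, ∃ q, In ζ q x y) :
    ∃ q0 q1 : Ix, q0.1 < q1.1 ∧ (∃ x y : ℤ, |x| + |y| ≤ 10 ∧ In ζ q0 x y) ∧
      (∀ x y : ℤ, |x| + |y| ≤ 10 → In ζ q0 x y → Own ζ q0 x y) ∧
      ∀ x y : ℤ, |x| + |y| ≤ 10 → ¬ In ζ q0 x y → Own ζ q1 x y := by
  classical
  have hex : ∃ k, ∃ q : Ix, q.1 = k ∧ ∃ x y : ℤ, |x| + |y| ≤ 10 ∧ In ζ q x y := by
    obtain ⟨q, hq⟩ := hc 0 0
    exact ⟨_, q, rfl, 0, 0, by norm_num, hq⟩
  obtain ⟨q0, hk0, x0, y0, hw0, hI0⟩ := Nat.find_spec hex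
  have hmin : ∀ q : Ix, ∀ x y : ℤ, |x| + |y| ≤ 10 → In ζ q x y → q0.1 ≤ q.1 := fun q x y h1 h2 => by
    rw [hk0]; exact Nat.find_min' hex ⟨q, rfl, x, y, h1, h2⟩
  have hall : ∀ q : Ix, ∀ x y : ℤ, |x| + |y| ≤ 10 → In ζ q x y → ¬ In ζ q0 x y →
      q0.1 < q.1 ∧ ∀ x' y' : ℤ, |x'| + |y'| ≤ 10 → In ζ q x' y' := by
    intro q x y h1 h2 h3
    have hlt : q0.1 < q.1 := by
      refine lt_of_le_of_ne (hmin q x y h1 h2) fun e => h3 ?_
      rw [In.same hζ hI0 h2 e (wd h1 hw0)]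
      exact h2
    have h4 := hI0.out hζ
    have h5 := pD_le_pW q0.1
    refine ⟨hlt, fun x' y' h' => ?_⟩
    rcases In_side hζ q hlt hI0.1 with h | h
    · exact h _ _ (by have := near h4 (wd hw0 h'); unfold pa; omega)
    · exact absurd h2 (h _ _ (by have := near h4 (wd hw0 h1); unfold pa; omega))
  have hown : ∀ x y, ∃ q, Own ζ q x y := by
    intro x y
    have hex : ∃ k, ∃ q : Ix, q.1 = k ∧ In ζ q x y := by
      obtain ⟨q, hq⟩ := hc x y
      exact ⟨_, q, rfl, hq⟩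
    obtain ⟨q, hk, hI⟩ := Nat.find_spec hex
    exact ⟨q, hI, fun q' h' => by rw [hk]; exact Nat.find_min' hex ⟨q', rfl, h'⟩⟩
  by_cases hout : ∃ x y : ℤ, |x| + |y| ≤ 10 ∧ ¬ In ζ q0 x y
  · obtain ⟨x1, y1, hw1, hI1⟩ := hout
    obtain ⟨q1, hq1⟩ := hown x1 y1
    obtain ⟨h1, h2⟩ := hall q1 x1 y1 hw1 hq1.1 hI1
    refine ⟨q0, q1, h1, ⟨x0, y0, hw0, hI0⟩, fun x y hw hI => ⟨hI, fun q' h' => hmin q' x y hw h'⟩,
      fun x y hw hI => ⟨h2 x y hw, fun q' h' => hq1.2 q' ((hall q' x y hw h' hI).2 x1 y1 hw1)⟩⟩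
  · exact ⟨q0, (q0.1 + 1, 0, 0), by simp, ⟨x0, y0, hw0, hI0⟩,
      fun x y hw hI => ⟨hI, fun q' h' => hmin q' x y hw h'⟩,
      fun x y hw hI => absurd ⟨x, y, hw, hI⟩ hout⟩

end Pool.Agent.H.MP_141b7f_lc
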