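import Pool.Agent.H.MP_141b7f_lc.Baire

set_option autoImplicit false

namespace Pool.Agent.H.MP_141b7f_lc
open MeasureTheory

abbrev Lam := Fin 5 → Set.Icc (-2 : ℤ) 2

noncomputable def kk : ℕ := Fintype.card Lam

noncomputable def dec (c : Fin kk) : Fin 5 → ℤ := fun t => ((Fintype.equivFin Lam).symm c t).1

noncomputable def enc (l : Fin 5 → ℤ) : Fin kk :=
  Fintype.equivFin Lam fun t => Set.projIcc (-2) 2 (by norm_num) (l t)

lemma dec_enc (l : Fin 5 → ℤ) (h : ∀ t, |l t| ≤ 2) : dec (enc l) = l := by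
  funext t
  unfold dec enc
  rw [Equiv.symm_apply_apply, Set.projIcc_of_mem _ (abs_le.1 (h t))]

lemma dec_bd (c : Fin kk) (t : Fin 5) : |dec c t| ≤ 2 :=
  abs_le.2 ((Fintype.equivFin Lam).symm c t).2

open Classical in
def Pat {n : ℕ} (i0 i1 : Fin n) (w : (Fin n → ℤ) → Prop) : Set ({g // w g} → Fin kk) :=
  {p | Rule fun i j => if h : w (emb i0 i1 i j) then dec (p ⟨_, h⟩) else 0}

lemma mem_Pat {n : ℕ} {i0 i1 : Fin n} (hi : i0 ≠ i1) {w : (Fin n → ℤ) → Prop}
    (hw : ∀ g, (∀ i, |g i| ≤ 4) → w g) (c : (Fin n → ℤ) → Fin kk) :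
    (fun g : {g // w g} => c g.1) ∈ Pat i0 i1 w ↔ Rule fun i j => dec (c (emb i0 i1 i j)) := by
  have h : ∀ i j : ℤ, |i| ≤ 4 → |j| ≤ 4 → w (emb i0 i1 i j) := by
    intro i j h1 h2
    refine hw _ fun t => ?_
    by_cases c0 : t = i0
    · rwa [c0, emb_0 hi]
    by_cases c1 : t = i1
    · rwa [c1, emb_1 hi]
    rw [emb_2 c0 c1]
    norm_num
  constructor
  · exact fun hp => Rule.congr hp fun i j h1 h2 => by simp only [dif_pos (h i j h1 h2)]
  · exact fun hp => Rule.congr hp fun i j h1 h2 => by simp only [dif_pos (h i j h1 h2)]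

theorem baire_pat {X : Type} [TopologicalSpace X] [BaireSpace X] [SecondCountableTopology X]
    [T1Space X] [MeasurableSpace X] [BorelSpace X] {n : ℕ} {i0 i1 : Fin n} (hi : i0 ≠ i1) {w : (Fin n → ℤ) → Prop}
    (hw : ∀ g, (∀ i, |g i| ≤ 4) → w g) (a : (Fin n → ℤ) → X → X)
    (h0 : ∀ x, a 0 x = x) (hadd : ∀ g h x, a (g + h) x = a g (a h x)) (hm : ∀ g, Measurable (a g))
    (hfree : ∀ g x, a g x = x → g = 0) :
    ∃ (c : X → Fin kk) (C : Set X), Measurable c ∧ MeasurableSet C ∧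
      (∀ g x, x ∈ C → a g x ∈ C) ∧ C ∈ residual X ∧
      ∀ x ∈ C, (fun g : {g // w g} => c (a g.1 x)) ∈ Pat i0 i1 w := by
  obtain ⟨f, C, h1, h2, h3, h4, h5, h6⟩ := baire_main hi a h0 hadd hm hfree
  refine ⟨fun x => enc (f x), C, (Measurable.of_discrete (f := enc)).comp
    (measurable_pi_lambda _ h1), h3, h4, h5, fun x hx => ?_⟩
  rw [mem_Pat hi hw fun g => enc (f (a g x))]
  simp only [dec_enc _ (h2 _)]
  exact h6 x hx

lemma rule_triv (m : ℤ) : Rule fun _ j => ![0, 0, 0, 0, (j + m) % 2] := by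
  refine ⟨fun _ _ => 0, fun i j _ _ => ⟨by simp, by simp⟩, by simp, by simp, by simp, by simp,
    by simp, by simp, fun i j _ _ _ => ?_, by simp, by simp⟩
  simp only [Matrix.cons_val]
  exact ⟨(0 + m) / 2 - (0 + j + m) / 2, by omega⟩

theorem baire_pat' {X : Type} [TopologicalSpace X] [BaireSpace X] [SecondCountableTopology X]
    [T1Space X] [MeasurableSpace X] [BorelSpace X] {n : ℕ} {i0 i1 : Fin n} (hi : i0 ≠ i1) {w : (Fin n → ℤ) → Prop}
    (hw : ∀ g, (∀ i, |g i| ≤ 4) → w g) (a : (Fin n → ℤ) → X → X)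
    (h0 : ∀ x, a 0 x = x) (hadd : ∀ g h x, a (g + h) x = a g (a h x)) (hm : ∀ g, Measurable (a g))
    (hfree : ∀ g x, a g x = x → g = 0) :
    ∃ c : X → Fin kk, (∀ s, BaireMeasurableSet (c ⁻¹' s)) ∧
      ∀ x, (fun g : {g // w g} => c (a g.1 x)) ∈ Pat i0 i1 w := by
  classical
  obtain ⟨c, C, h1, _, h3, h4, h5⟩ := baire_pat hi hw a h0 hadd hm hfree
  let s : Setoid X := ⟨fun x y => ∃ g, a g x = y, fun x => ⟨0, h0 x⟩, by
    rintro x _ ⟨g, rfl⟩
    exact ⟨-g, by rw [← hadd, neg_add_cancel, h0]⟩, by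
    rintro x _ _ ⟨g, rfl⟩ ⟨h, rfl⟩
    exact ⟨h + g, hadd _ _ _⟩⟩
  have hex : ∀ x, ∃ g, a g (Quotient.mk s x).out = x := fun x => Quotient.mk_out (s := s) x
  choose p hp using hex
  have hpa : ∀ g x, p (a g x) = g + p x := by
    intro g x
    have e : Quotient.mk s (a g x) = Quotient.mk s x := (Quotient.sound (s := s) ⟨g, rfl⟩).symm
    have h6 := hp (a g x)
    rw [e] at h6
    have h7 : a (-(g + p x) + p (a g x)) (Quotient.mk s x).out = (Quotient.mk s x).out := by
      have h8 : a g x = a (g + p x) (Quotient.mk s x).out := by rw [hadd, hp]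
      rw [hadd, h6, h8, ← hadd, neg_add_cancel, h0]
    have := hfree _ _ h7
    rwa [neg_add_eq_zero, eq_comm] at this
  refine ⟨fun x => if x ∈ C then c x else enc ![0, 0, 0, 0, p x i1 % 2], fun t => ?_, fun x => ?_⟩
  · refine (h1 (MeasurableSet.of_discrete (s := t))).baireMeasurableSet.congr ?_
    filter_upwards [h4] with x hx
    change (c x ∈ t) = ((if x ∈ C then c x else _) ∈ t)
    rw [if_pos hx]
  · by_cases hx : x ∈ C
    · simp only [if_pos (h3 _ x hx)]
      exact h5 x hx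
    · have hn : ∀ g, a g x ∉ C := fun g h => hx (by
        have := h3 (-g) _ h
        rwa [← hadd, neg_add_cancel, h0] at this)
      simp only [if_neg (hn _)]
      rw [mem_Pat hi hw fun g => enc ![0, 0, 0, 0, p (a g x) i1 % 2]]
      convert rule_triv (p x i1) using 3 with i j
      rw [dec_enc, hpa, Pi.add_apply, emb_1 hi]
      intro t
      fin_cases t <;> simp
      rw [abs_le]
      omega

noncomputable def th {n : ℕ} (g : Fin n → ℤ) : ℝ := ∑ i, g i * liouvilleNumber 2 ^ (i.1 + 1)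

noncomputable def rot {n : ℕ} (g : Fin n → ℤ) (x : UnitAddCircle) : UnitAddCircle :=
  (th g : UnitAddCircle) + x

lemma th_add {n : ℕ} (g h : Fin n → ℤ) : th (g + h) = th g + th h := by
  simp [th, add_mul, Finset.sum_add_distrib]

lemma th_zero {n : ℕ} (g : Fin n → ℤ) (h : (th g : UnitAddCircle) = 0) : g = 0 := by
  obtain ⟨m, hm⟩ := (AddCircle.coe_eq_zero_iff _).1 h
  have ht := transcendental_liouvilleNumber (m := 2) le_rfl
  have := (transcendental_iff.1 ht)
    (∑ i : Fin n, Polynomial.monomial (i.1 + 1) (g i) - Polynomial.C m) (by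
      simp only [map_sub, map_sum, Polynomial.aeval_monomial, Polynomial.aeval_C, eq_intCast]
      simp only [th, zsmul_eq_mul, mul_one] at hm
      push_cast
      rw [← hm]
      simp)
  funext i
  have h2 := congrArg (fun p => Polynomial.coeff p (i.1 + 1)) this
  simp only [Polynomial.coeff_sub, Polynomial.finset_sum_coeff, Polynomial.coeff_monomial,
    Polynomial.coeff_C_succ, sub_zero, Polynomial.coeff_zero, Nat.add_right_cancel_iff,
    Fin.val_inj, Finset.sum_ite_eq', Finset.mem_univ, if_true] at h2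
  exact h2

lemma rot_zero {n : ℕ} (x : UnitAddCircle) : rot (0 : Fin n → ℤ) x = x := by simp [rot, th]

lemma rot_add {n : ℕ} (g h : Fin n → ℤ) (x : UnitAddCircle) : rot (g + h) x = rot g (rot h x) := by
  simp [rot, th_add, add_assoc]

lemma rot_cont {n : ℕ} (g : Fin n → ℤ) : Continuous (rot g) := by
  unfold rot
  fun_prop

lemma rot_free {n : ℕ} (g : Fin n → ℤ) (x : UnitAddCircle) (h : rot g x = x) : g = 0 :=
  th_zero g (add_eq_right.1 h)

lemma rot_mp {n : ℕ} (g : Fin n → ℤ) : MeasurePreserving (rot g) volume volume :=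
  measurePreserving_add_left volume _

lemma rot_erg {n : ℕ} (g : Fin n → ℤ) (hg : g ≠ 0) : Ergodic (rot g) volume := by
  refine AddCircle.ergodic_add_left.2 (addOrderOf_eq_zero_iff'.2 fun m hm h => hg ?_)
  have h1 : th (m • g) = m • th g := by
    simp [th, Finset.mul_sum, mul_assoc]
  have := th_zero (m • g) (by rw [h1, AddCircle.coe_nsmul, h])
  exact (smul_eq_zero.1 this).resolve_left hm.ne'

lemma vol_prob : IsProbabilityMeasure (volume : Measure UnitAddCircle) :=
  ⟨by simp [AddCircle.measure_univ]⟩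

theorem rot_no {n : ℕ} {i0 i1 : Fin n} (hi : i0 ≠ i1) {w : (Fin n → ℤ) → Prop}
    (hw : ∀ g, (∀ i, |g i| ≤ 4) → w g) (c : UnitAddCircle → Fin kk) (hc : Measurable c)
    (h : ∀ᵐ x ∂volume, (fun g : {g // w g} => c (rot g.1 x)) ∈ Pat i0 i1 w) : False := by
  haveI := vol_prob
  refine no_meas (a := fun i j => rot (emb i0 i1 i j)) (f := fun x => dec (c x)) volume
    (fun x => by rw [emb_zero, rot_zero]) (fun i j i' j' x => by rw [emb_add, rot_add])
    (fun i j => rot_mp _) (rot_erg _ fun e => ?_)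
    (fun t => (Measurable.of_discrete (f := fun c => dec c t)).comp hc) (fun x t => dec_bd _ t)
    (h.mono fun x hx => (mem_Pat hi hw fun g => c (rot g x)).1 hx)
  have := congrFun e i1
  rw [emb_1 hi] at this
  simp at this

end Pool.Agent.H.MP_141b7f_lc
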