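import Mathlib

set_option autoImplicit false

namespace Pool.Agent.H.MP_141b7f_lc

abbrev Cf := ℤ → ℤ → Fin 5 → ℤ

structure Loc (ω : Cf) (H : ℤ → ℤ → ℤ) (x y : ℤ) : Prop where
  l0 : |ω x y 0| ≤ 1
  l1 : |ω x y 1| ≤ 1
  r2 : H (x + 1) y < H x y ∨ H (x - 1) y < H x y → H x (y + 1) < H x y ∨ H x (y - 1) < H x y
  f0 : ω x y 0 ≠ 0 → ω x y 2 = 0
  f1 : ω x y 1 ≠ 0 → ω x y 3 = 0
  dv : ω x y 2 - ω (x - 1) y 2 + ω x y 3 - ω x (y - 1) 3 =
    (if H x (y + 1) < H x y then 1 else 0) - (if H x (y - 1) < H x y then 1 else 0)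
  cc : ∀ i j : ℤ, |i| ≤ 4 → |j| ≤ 4 → H (x + i) (y + j) = H x y →
    Even (ω (x + i) (y + j) 4 - ω x y 4 - j)
  st : H x (y + 1) < H x y → H (x + 4) (y - 1) < H x y ∨ H (x - 4) (y - 1) < H x y
  sb : H x (y - 1) < H x y → H (x + 4) (y - 2) < H x y ∧ H (x - 4) (y - 2) < H x y

def Grad (ω : Cf) (H : ℤ → ℤ → ℤ) (x y : ℤ) : Prop :=
  H (x + 1) y - H x y = ω x y 0 ∧ H x (y + 1) - H x y = ω x y 1

def Rule (ω : Cf) : Prop :=
  ∃ H : ℤ → ℤ → ℤ, (∀ i j : ℤ, |i| ≤ 4 → |j| ≤ 4 → Grad ω H i j) ∧ Loc ω H 0 0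

lemma Loc.transfer {ω ω' : Cf} {H H' : ℤ → ℤ → ℤ} {x y : ℤ} (c : ℤ) (h : Loc ω H 0 0)
    (h1 : ∀ i j : ℤ, |i| ≤ 4 → |j| ≤ 4 → ω' (x + i) (y + j) = ω i j)
    (h2 : ∀ i j : ℤ, |i| ≤ 4 → |j| ≤ 4 → H' (x + i) (y + j) = H i j + c) : Loc ω' H' x y := by
  have w00 := h1 0 0 (by norm_num) (by norm_num)
  have wm0 := h1 (-1) 0 (by norm_num) (by norm_num)
  have w0m := h1 0 (-1) (by norm_num) (by norm_num)
  have a00 := h2 0 0 (by norm_num) (by norm_num)
  have a10 := h2 1 0 (by norm_num) (by norm_num)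
  have am0 := h2 (-1) 0 (by norm_num) (by norm_num)
  have a01 := h2 0 1 (by norm_num) (by norm_num)
  have a0m := h2 0 (-1) (by norm_num) (by norm_num)
  have a41 := h2 4 (-1) (by norm_num) (by norm_num)
  have am41 := h2 (-4) (-1) (by norm_num) (by norm_num)
  have a42 := h2 4 (-2) (by norm_num) (by norm_num)
  have am42 := h2 (-4) (-2) (by norm_num) (by norm_num)
  simp only [add_zero, ← sub_eq_add_neg] at w00 wm0 w0m a00 a10 am0 a01 a0m a41 am41 a42 am42
  obtain ⟨l0, l1, r2, f0, f1, dv, cc, st, sb⟩ := h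
  simp only [zero_add, zero_sub] at r2 dv cc st sb
  refine ⟨by rwa [w00], by rwa [w00], ?_, by rwa [w00], by rwa [w00], ?_, ?_, ?_, ?_⟩
  · rw [a00, a10, am0, a01, a0m]
    simpa using r2
  · rw [w00, wm0, w0m, a00, a01, a0m]
    simpa using dv
  · intro i j hi hj he
    rw [h1 i j hi hj, w00]
    rw [h2 i j hi hj, a00] at he
    exact cc i j hi hj (by omega)
  · rw [a00, a01, a41, am41]
    simpa using st
  · rw [a00, a0m, a42, am42]
    simpa using sb

lemma Rule.congr {ω ω' : Cf} (h : Rule ω) (h1 : ∀ i j : ℤ, |i| ≤ 4 → |j| ≤ 4 → ω' i j = ω i j) :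
    Rule ω' := by
  obtain ⟨H, hg, hl⟩ := h
  refine ⟨H, fun i j hi hj => ?_, hl.transfer 0 (by simpa using h1) (by simp)⟩
  unfold Grad
  rw [h1 i j hi hj]
  exact hg i j hi hj

noncomputable def prim (d : ℤ → ℤ) (k : ℤ) : ℤ := ∑ j ∈ Finset.Ico 0 k, d j - ∑ j ∈ Finset.Ico k 0, d j

lemma prim_zero (d : ℤ → ℤ) : prim d 0 = 0 := by simp [prim]

lemma prim_succ (d : ℤ → ℤ) (k : ℤ) : prim d (k + 1) - prim d k = d k := by
  unfold prim
  rcases le_or_gt 0 k with h | h
  · rw [Finset.Ico_eq_empty_of_le h, Finset.Ico_eq_empty_of_le (by omega : (0 : ℤ) ≤ k + 1),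
      ← Finset.insert_Ico_right_eq_Ico_add_one h, Finset.sum_insert (by simp)]
    simp
  · rw [Finset.Ico_eq_empty_of_le h.le, Finset.Ico_eq_empty_of_le (by omega : k + 1 ≤ 0),
      ← Finset.insert_Ico_add_one_left_eq_Ico h, Finset.sum_insert (by simp)]
    simp

lemma ex_prim (d : ℤ → ℤ) : ∃ S : ℤ → ℤ, S 0 = 0 ∧ ∀ k, S (k + 1) - S k = d k :=
  ⟨prim d, prim_zero d, prim_succ d⟩

lemma const_of_step (G : ℤ → ℤ) (h : ∀ k, G (k + 1) = G k) (k : ℤ) : G k = G 0 := by
  induction k using Int.induction_on with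
  | zero => rfl
  | succ k ih => rw [h, ih]
  | pred k ih =>
    have := h (-k - 1)
    rw [sub_add_cancel] at this
    rw [← this, ih]

lemma const_box (G : ℤ → ℤ) (h : ∀ k, |k| ≤ 4 → G (k + 1) = G k) (k : ℤ) (hk : |k| ≤ 4) :
    G k = G 0 := by
  have a0 := h 0 (by norm_num)
  have a1 := h 1 (by norm_num)
  have a2 := h 2 (by norm_num)
  have a3 := h 3 (by norm_num)
  have b1 := h (-1) (by norm_num)
  have b2 := h (-2) (by norm_num)
  have b3 := h (-3) (by norm_num)
  have b4 := h (-4) (by norm_num)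
  norm_num at a0 a1 a2 a3 b1 b2 b3 b4
  obtain ⟨h1, h2⟩ := abs_le.1 hk
  interval_cases k <;> omega

lemma glob (ω : Cf) (h : ∀ x y, Rule fun i j => ω (x + i) (y + j)) :
    ∃ H : ℤ → ℤ → ℤ, (∀ x y, Grad ω H x y) ∧ ∀ x y, Loc ω H x y := by
  have hcl : ∀ x y, ω x y 0 + ω (x + 1) y 1 = ω x y 1 + ω x (y + 1) 0 := by
    intro x y
    obtain ⟨H, hg, _⟩ := h x y
    have a := hg 0 0 (by norm_num) (by norm_num)
    have b := hg 1 0 (by norm_num) (by norm_num)
    have c := hg 0 1 (by norm_num) (by norm_num)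
    simp only [Grad, add_zero, zero_add] at a b c
    omega
  obtain ⟨S, _, hS⟩ := ex_prim fun k => ω k 0 0
  choose V hV0 hV using fun x => ex_prim fun k => ω x k 1
  have hG : ∀ x y, Grad ω (fun x y => S x + V x y) x y := by
    intro x y
    refine ⟨?_, by have := hV x y; dsimp only; omega⟩
    have := const_of_step (fun y => S (x + 1) + V (x + 1) y - (S x + V x y) - ω x y 0) (fun k => by
      have := hV x k
      have := hV (x + 1) k
      have := hcl x k
      omega) y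
    have h1 := hS x
    have h2 := hV0 x
    have h3 := hV0 (x + 1)
    simp only at this ⊢
    omega
  refine ⟨_, hG, fun x y => ?_⟩
  obtain ⟨H, hg, hl⟩ := h x y
  refine hl.transfer (S x + V x y - H 0 0) (fun _ _ _ _ => rfl) fun i j hi hj => ?_
  have h1 := const_box (fun k => S (x + k) + V (x + k) y - H k 0) (fun k hk => by
    have a := (hG (x + k) y).1
    have b := (hg k 0 hk (by norm_num)).1
    simp only [add_zero] at a b
    rw [← add_assoc]
    omega) i hi
  have h2 := const_box (fun k => S (x + i) + V (x + i) (y + k) - H i k) (fun k hk => by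
    have a := (hG (x + i) (y + k)).2
    have b := (hg i k hi hk).2
    simp only at a b
    rw [← add_assoc]
    omega) j hj
  simp only [add_zero] at h1 h2
  omega

/-- colour consistency on the minimal level -/
lemma col_min {ω : Cf} {H : ℤ → ℤ → ℤ} (hg : ∀ x y, Grad ω H x y) (hl : ∀ x y, Loc ω H x y)
    (η : ℤ) (hη : ∀ x y, η ≤ H x y) :
    ∀ (D : ℕ) (x y : ℤ), H x y = η → H x (y + D) = η → Even (ω x (y + D) 4 - ω x y 4 - D) := by
  have hv : ∀ x y, |H x (y + 1) - H x y| ≤ 1 := fun x y => by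
    rw [(hg x y).2]; exact (hl x y).l1
  intro D
  induction D using Nat.strong_induction_on with
  | _ D ih =>
  intro x y h1 h2
  by_cases hD : D ≤ 4
  · have := (hl x y).cc 0 D (by norm_num) (by rw [abs_le]; omega) (by rw [add_zero, h1, h2])
    rwa [add_zero] at this
  by_cases hm : ∃ m : ℕ, 0 < m ∧ m < D ∧ H x (y + m) = η
  · obtain ⟨m, m0, mD, hm⟩ := hm
    obtain ⟨a, ha⟩ := ih m mD x y h1 hm
    have e : y + m + ((D - m : ℕ) : ℤ) = y + D := by omega
    obtain ⟨b, hb⟩ := ih (D - m) (by omega) x (y + m) hm (by rw [e, h2])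
    rw [e] at hb
    exact ⟨a + b, by omega⟩
  have hB : H x (y + 1) = η + 1 := by
    have a := abs_le.1 (hv x y)
    have b := hη x (y + 1)
    have c : H x (y + 1) ≠ η := fun e => hm ⟨1, by omega, by omega, e⟩
    omega
  have hT : H x (y + D - 1) = η + 1 := by
    have a := abs_le.1 (hv x (y + D - 1))
    rw [sub_add_cancel] at a
    have b := hη x (y + D - 1)
    have c : H x (y + D - 1) ≠ η := fun e => hm ⟨D - 1, by omega, by omega, by
      rw [← e]; congr 1; omega⟩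
    omega
  have s1 := (hl x (y + D - 1)).st (by rw [sub_add_cancel]; omega)
  have s2 := (hl x (y + 1)).sb (by rw [add_sub_cancel_right]; omega)
  have key : ∀ e : ℤ, |e| ≤ 4 → H (x + e) (y + D - 1 - 1) < η + 1 → H (x + e) (y + 1 - 2) < η + 1 →
      Even (ω x (y + D) 4 - ω x y 4 - D) := by
    intro e he a b
    have a' : H (x + e) (y + D + -2) = η := by
      have := hη (x + e) (y + D - 1 - 1)
      rw [show y + D + -2 = y + D - 1 - 1 by ring]
      omega
    have b' : H (x + e) (y + -1) = η := by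
      have := hη (x + e) (y + 1 - 2)
      rw [show y + -1 = y + 1 - 2 by ring]
      omega
    obtain ⟨p, hp⟩ := (hl x (y + D)).cc e (-2) he (by norm_num) (by rw [a', h2])
    obtain ⟨q, hq⟩ := (hl x y).cc e (-1) he (by norm_num) (by rw [b', h1])
    have e1 : y + -1 + ((D - 1 : ℕ) : ℤ) = y + D + -2 := by omega
    obtain ⟨r, hr⟩ := ih (D - 1) (by omega) (x + e) (y + -1) b' (by rw [e1, a'])
    rw [e1] at hr
    exact ⟨r + q - p - 1 + 1, by omega⟩
  rw [hT] at s1
  rw [hB] at s2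
  rcases s1 with s1 | s1
  · exact key 4 (by norm_num) s1 s2.1
  · exact key (-4) (by norm_num) s1 s2.2

lemma glob_min {ω : Cf} {H : ℤ → ℤ → ℤ} (hg : ∀ x y, Grad ω H x y) (hl : ∀ x y, Loc ω H x y)
    (hb : ∀ x, ∃ y, ∀ y', H x y ≤ H x y') (x y : ℤ) (hy : ∀ y', H x y ≤ H x y') :
    ∀ x' y', H x y ≤ H x' y' := by
  choose m hm using hb
  have hh : ∀ x y, |H (x + 1) y - H x y| ≤ 1 := fun x y => by
    rw [(hg x y).1]; exact (hl x y).l0
  have hs : ∀ k, H (k + 1) (m (k + 1)) = H k (m k) := by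
    intro k
    apply le_antisymm
    · by_contra hc
      have h1 := abs_le.1 (hh k (m k))
      have h2 := hm (k + 1) (m k)
      have h3 := (hl (k + 1) (m k)).r2 (Or.inr (by rw [add_sub_cancel_right]; omega))
      have h4 := hm (k + 1) (m k + 1)
      have h5 := hm (k + 1) (m k - 1)
      omega
    · by_contra hc
      have h1 := abs_le.1 (hh k (m (k + 1)))
      have h2 := hm k (m (k + 1))
      have h3 := (hl k (m (k + 1))).r2 (Or.inl (by omega))
      have h4 := hm k (m (k + 1) + 1)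
      have h5 := hm k (m (k + 1) - 1)
      omega
  intro x' y'
  have h1 := const_of_step (fun k => H k (m k)) hs x
  have h2 := const_of_step (fun k => H k (m k)) hs x'
  have h3 := hy (m x)
  have h4 := hm x' y'
  omega

/-- staying at height at least the start for `k` steps in direction `s` -/
def St (H : ℤ → ℤ → ℤ) (s : ℤ) (k : ℕ) (x y : ℤ) : Prop :=
  ∀ j : ℕ, j ≤ k → H x y ≤ H x (y + s * j)

lemma St.mono {H : ℤ → ℤ → ℤ} {s : ℤ} {k : ℕ} {x y : ℤ} (h : St H s (k + 1) x y) :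
    St H s k x y := fun j hj => h j (by omega)

lemma St_hor {ω : Cf} {H : ℤ → ℤ → ℤ} (hg : ∀ x y, Grad ω H x y) (hl : ∀ x y, Loc ω H x y)
    (s : ℤ) (hs : s = 1 ∨ s = -1) (k : ℕ) (x x' y : ℤ) (hx : x' = x + 1 ∨ x' = x - 1)
    (he : H x' y = H x y) (h : St H s (k + 1) x y) : St H s k x' y := by
  have hh : ∀ x y, |H (x + 1) y - H x y| ≤ 1 := fun x y => by
    rw [(hg x y).1]; exact (hl x y).l0
  intro j hj
  by_contra hc
  have j0 : j ≠ 0 := by
    rintro rfl
    simp at hc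
  have a := h j (by omega)
  have b := h (j + 1) (by omega)
  have c := h (j - 1) (by omega)
  have hlt : H x' (y + s * j) < H x (y + s * j) := by omega
  have hle : H x (y + s * j) ≤ H x' (y + s * j) + 1 := by
    rcases hx with rfl | rfl
    · have := abs_le.1 (hh x (y + s * j))
      omega
    · have := abs_le.1 (hh (x - 1) (y + s * j))
      rw [sub_add_cancel] at this
      omega
  have d := (hl x (y + s * j)).r2 (by
    rcases hx with rfl | rfl
    · exact Or.inl hlt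
    · exact Or.inr hlt)
  rw [Nat.cast_sub (by omega)] at c
  push_cast at b c
  rcases hs with rfl | rfl
  · rw [show y + 1 * ((j : ℤ) + 1) = y + 1 * j + 1 by ring] at b
    rw [show y + 1 * ((j : ℤ) - 1) = y + 1 * j - 1 by ring] at c
    omega
  · rw [show y + -1 * ((j : ℤ) + 1) = y + -1 * j - 1 by ring] at b
    rw [show y + -1 * ((j : ℤ) - 1) = y + -1 * j + 1 by ring] at c
    omega

lemma St_ver {H : ℤ → ℤ → ℤ} (s : ℤ) (hs : s = 1 ∨ s = -1) (k : ℕ) (x y y' : ℤ)
    (hy : y' = y + 1 ∨ y' = y - 1) (he : H x y' = H x y) (h : St H s (k + 1) x y) :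
    St H s k x y' := by
  intro j hj
  by_cases j0 : j = 0
  · subst j0
    simp
  have b := h (j + 1) (by omega)
  have c := h (j - 1) (by omega)
  rw [Nat.cast_sub (by omega)] at c
  push_cast at b c
  rw [he]
  rcases hs with rfl | rfl <;> rcases hy with rfl | rfl
  · convert b using 2; ring
  · convert c using 2; ring
  · convert c using 2; ring
  · convert b using 2; ring

end Pool.Agent.H.MP_141b7f_lc
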