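import Pool.Agent.H.MP_141b7f_lc.Curve

set_option autoImplicit false

namespace Pool.Agent.H.MP_141b7f_lc

def L2 (L : ℝ) (ψ : ℤ → ℤ → ℝ) : Prop :=
  ∀ x y, |ψ (x + 1) y - ψ x y| ≤ L ∧ |ψ x (y + 1) - ψ x y| ≤ L

lemma lip1 (g : ℤ → ℝ) (L : ℝ) (h : ∀ k, |g (k + 1) - g k| ≤ L) (x u : ℤ) :
    |g x - g u| ≤ L * |(x : ℝ) - u| := by
  have key : ∀ (u : ℤ) (n : ℕ), |g (u + n) - g u| ≤ L * n := by
    intro u n
    induction n with
    | zero => simp
    | succ n ih =>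
      have h1 := h (u + n)
      have h2 := abs_sub_le (g (u + n + 1)) (g (u + n)) (g u)
      push_cast
      rw [← add_assoc]
      linarith
  rcases le_total u x with hx | hx
  · obtain ⟨n, rfl⟩ := Int.le.dest hx
    have := key u n
    push_cast
    rwa [add_sub_cancel_left, Nat.abs_cast]
  · obtain ⟨n, rfl⟩ := Int.le.dest hx
    have := key x n
    push_cast
    rwa [abs_sub_comm, abs_sub_comm (x : ℝ), add_sub_cancel_left, Nat.abs_cast]

lemma L2.glob {L : ℝ} {ψ : ℤ → ℤ → ℝ} (h : L2 L ψ) (x y u v : ℤ) :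
    |ψ x y - ψ u v| ≤ L * (|(x : ℝ) - u| + |(y : ℝ) - v|) := by
  have h1 := lip1 (fun k => ψ k y) L (fun k => (h k y).1) x u
  have h2 := lip1 (fun k => ψ u k) L (fun k => (h u k).2) y v
  have h3 := abs_sub_le (ψ x y) (ψ u y) (ψ u v)
  linarith

noncomputable def clamp (c r w : ℝ) : ℝ := max (c - r) (min w (c + r))

lemma clamp_lip (c r r' w w' L : ℝ) (h1 : |r - r'| ≤ L) (h2 : |w - w'| ≤ L) :
    |clamp c r w - clamp c r' w'| ≤ L := by
  unfold clamp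
  refine (abs_max_sub_max_le_max _ _ _ _).trans (max_le ?_ ?_)
  · rwa [show c - r - (c - r') = -(r - r') by ring, abs_neg]
  · refine (abs_min_sub_min_le_max _ _ _ _).trans (max_le h2 ?_)
    rwa [show c + r - (c + r') = r - r' by ring]

lemma clamp_eq (c r w : ℝ) (h : |w - c| ≤ r) : clamp c r w = w := by
  obtain ⟨h1, h2⟩ := abs_le.1 h
  unfold clamp
  rw [min_eq_left (by linarith), max_eq_right (by linarith)]

lemma clamp_zero (c w : ℝ) : clamp c 0 w = c := by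
  unfold clamp
  simp

lemma stream_step (Z : ℤ → ℤ → Prop) (ψ : ℤ → ℤ → ℝ) (L L' : ℝ) (D W : ℕ) (hψ : L2 L' ψ)
    (hL' : 0 ≤ L') (hL : L' ≤ L) (hW : L * D ≤ (L - L') * W) (hDW : D ≤ W)
    (hZ : ∀ u v u' v', Z u v → Z u' v' → |u - u'| + |v - v'| ≤ 2 * W + 1 → u = u' ∧ v = v') :
    ∃ ψ' : ℤ → ℤ → ℝ, L2 L ψ' ∧
      (∀ x y, (∀ u v, Z u v → |x - u| + |y - v| ≤ W → ψ x y = ψ u v) → ψ' x y = ψ x y) ∧
      ∀ u v, Z u v → ∀ x y, |x - u| + |y - v| ≤ D → ψ' x y = ψ u v := by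
  classical
  let ρ : ℤ → ℤ → ℤ → ℤ → ℝ := fun u v x y => L * max (|(x : ℝ) - u| + |(y : ℝ) - v| - D) 0
  let ψ' : ℤ → ℤ → ℝ := fun x y =>
    if h : ∃ z : ℤ × ℤ, Z z.1 z.2 ∧ |x - z.1| + |y - z.2| ≤ W then
      clamp (ψ h.choose.1 h.choose.2) (ρ h.choose.1 h.choose.2 x y) (ψ x y) else ψ x y
  have hL0 : 0 ≤ L := hL'.trans hL
  have key : ∀ u v, Z u v → ∀ x y, |x - u| + |y - v| ≤ W + 1 →
      ψ' x y = clamp (ψ u v) (ρ u v x y) (ψ x y) := by
    intro u v hz x y hxy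
    simp only [ψ']
    split_ifs with h
    · obtain ⟨h1, h2⟩ := h.choose_spec
      obtain ⟨e1, e2⟩ := hZ _ _ u v h1 hz (by
        have a := abs_sub_le h.choose.1 x u
        have b := abs_sub_le h.choose.2 y v
        rw [abs_sub_comm _ x] at a
        rw [abs_sub_comm _ y] at b
        omega)
      rw [e1, e2]
    · have h1 : (W : ℤ) ≤ |x - u| + |y - v| := by
        by_contra hc
        exact h ⟨(u, v), hz, by simp only; omega⟩
      have h2 : (W : ℝ) ≤ |(x : ℝ) - u| + |(y : ℝ) - v| := by exact_mod_cast h1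
      refine (clamp_eq _ _ _ ((hψ.glob x y u v).trans ?_)).symm
      have h3 := mul_le_mul_of_nonneg_left h2 (sub_nonneg.2 hL)
      have h4 := mul_le_mul_of_nonneg_left
        (le_max_left (|(x : ℝ) - u| + |(y : ℝ) - v| - D) 0) hL0
      simp only [ρ]
      linarith
  have lip : ∀ x y x' y' : ℤ, |x' - x| + |y' - y| ≤ 1 → |ψ x' y' - ψ x y| ≤ L' →
      |ψ' x' y' - ψ' x y| ≤ L := by
    intro x y x' y' hd hψ'
    have hcl : ∀ u v, Z u v → |x - u| + |y - v| ≤ W + 1 → |x' - u| + |y' - v| ≤ W + 1 →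
        |ψ' x' y' - ψ' x y| ≤ L := by
      intro u v hz h1 h2
      rw [key u v hz x y h1, key u v hz x' y' h2]
      refine clamp_lip _ _ _ _ _ _ ?_ (hψ'.trans hL)
      simp only [ρ]
      rw [← mul_sub, abs_mul, abs_of_nonneg hL0]
      refine mul_le_of_le_one_right hL0 ((abs_max_sub_max_le_max _ _ _ _).trans (max_le ?_ (by simp)))
      have hd' : |(x' : ℝ) - x| + |(y' : ℝ) - y| ≤ 1 := by exact_mod_cast hd
      have a := abs_abs_sub_abs_le_abs_sub ((x' : ℝ) - u) (x - u)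
      have b := abs_abs_sub_abs_le_abs_sub ((y' : ℝ) - v) (y - v)
      rw [sub_sub_sub_cancel_right] at a b
      obtain ⟨a1, a2⟩ := abs_le.1 a
      obtain ⟨b1, b2⟩ := abs_le.1 b
      rw [abs_le]
      constructor <;> linarith
    by_cases h1 : ∃ z : ℤ × ℤ, Z z.1 z.2 ∧ |x - z.1| + |y - z.2| ≤ W
    · obtain ⟨⟨u, v⟩, hz, h1⟩ := h1
      have a := abs_sub_le x' x u
      have b := abs_sub_le y' y v
      simp only at h1
      exact hcl u v hz (by omega) (by omega)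
    by_cases h2 : ∃ z : ℤ × ℤ, Z z.1 z.2 ∧ |x' - z.1| + |y' - z.2| ≤ W
    · obtain ⟨⟨u, v⟩, hz, h2⟩ := h2
      have a := abs_sub_le x x' u
      have b := abs_sub_le y y' v
      rw [abs_sub_comm x x'] at a
      rw [abs_sub_comm y y'] at b
      simp only at h2
      exact hcl u v hz (by omega) (by omega)
    simp only [ψ', dif_neg h1, dif_neg h2]
    exact hψ'.trans hL
  refine ⟨ψ', fun x y => ⟨lip x y _ _ (by simp) (hψ x y).1, lip x y _ _ (by simp) (hψ x y).2⟩,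
    fun x y h => ?_, fun u v hz x y hxy => ?_⟩
  · by_cases h1 : ∃ z : ℤ × ℤ, Z z.1 z.2 ∧ |x - z.1| + |y - z.2| ≤ W
    · obtain ⟨⟨u, v⟩, hz, h1⟩ := h1
      simp only at h1 hz
      rw [key u v hz x y (by omega)]
      refine clamp_eq _ _ _ ?_
      rw [h u v hz h1, sub_self, abs_zero]
      exact mul_nonneg hL0 (le_max_right _ _)
    · simp only [ψ', dif_neg h1]
  · rw [key u v hz x y (by omega)]
    have h2 : |(x : ℝ) - u| + |(y : ℝ) - v| ≤ D := by exact_mod_cast hxy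
    simp only [ρ]
    rw [max_eq_right (by linarith), mul_zero, clamp_zero]

def Nest (ζ : Zc) (k : ℕ) (S : ℤ → ℤ → Prop) : Prop :=
  ∀ j < k, ∀ u v, ζ j u v → (∀ x y : ℤ, |x - u| + |y - v| ≤ pW j → S x y) ∨
    ∀ x y : ℤ, |x - u| + |y - v| ≤ pW j → ¬ S x y

lemma stream (ζ : Zc) (hζ : Sep ζ) (k : ℕ) :
    ∀ ψ : ℤ → ℤ → ℝ, L2 (1 + 1 / ((k : ℝ) + 1)) ψ → ∃ ψ' : ℤ → ℤ → ℝ, L2 2 ψ' ∧
      (∀ x y, (∀ j < k, ∀ u v, ζ j u v → pW j < |x - u| + |y - v|) → ψ' x y = ψ x y) ∧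
      (∀ S c, Nest ζ k S → (∀ x y, S x y → ψ x y = c) → ∀ x y, S x y → ψ' x y = c) ∧
      ∀ j < k, ∀ u v, ζ j u v → ∀ S, Nest ζ j S →
        (∀ x y, S x y → |x - u| + |y - v| ≤ pD j + 2) → ∃ c, ∀ x y, S x y → ψ' x y = c := by
  induction k with
  | zero =>
    intro ψ hψ
    refine ⟨ψ, by convert hψ using 1; norm_num, fun _ _ _ => rfl, fun _ _ _ h => h,
      fun j hj => by omega⟩
  | succ k ih =>
    intro ψ hψ
    have hk : (0 : ℝ) ≤ k := Nat.cast_nonneg k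
    obtain ⟨ψ1, a1, a2, a3⟩ := stream_step (ζ k) ψ (1 + 1 / ((k : ℝ) + 1)) _ (pD k + 2) (pW k) hψ
      (by positivity)
      (by have := one_div_le_one_div_of_le (show (0 : ℝ) < k + 1 by positivity)
            (show (k : ℝ) + 1 ≤ ((k + 1 : ℕ) : ℝ) + 1 by push_cast; linarith)
          linarith)
      (by
        have e : (1 + 1 / ((k : ℝ) + 1) - (1 + 1 / (((k + 1 : ℕ) : ℝ) + 1))) * pW k =
            2 * ((pD k + 2 : ℕ) : ℝ) := by
          unfold pW; push_cast; field_simp; ring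
        rw [e]
        refine mul_le_mul_of_nonneg_right ?_ (Nat.cast_nonneg _)
        have : 1 / ((k : ℝ) + 1) ≤ 1 := by rw [div_le_one (by positivity)]; linarith
        linarith)
      (pD_le_pW k)
      (fun u v u' v' h1 h2 h3 => hζ k u v u' v' h1 h2 (by
        have := pa_lt_pr k
        unfold pa at this
        omega))
    obtain ⟨ψ2, b1, b2, b3, b4⟩ := ih ψ1 a1
    refine ⟨ψ2, b1, fun x y h => ?_, fun S c hS hc => ?_, fun j hj u v h S hS hb => ?_⟩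
    · rw [b2 x y fun j hj => h j (by omega), a2 x y fun u v hz hle => ?_]
      have := h k (by omega) u v hz
      omega
    · refine b3 S c (fun j hj => hS j (by omega)) fun x y hxy => ?_
      rw [a2 x y fun u v hz hle => ?_, hc x y hxy]
      rcases hS k (by omega) u v hz with h | h
      · rw [hc x y hxy, hc u v (h u v (by simp))]
      · exact absurd hxy (h x y hle)
    · rcases Nat.lt_succ_iff_lt_or_eq.1 hj with hj | rfl
      · exact b4 j hj u v h S hS hb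
      · exact ⟨ψ u v, b3 S _ hS fun x y hxy => a3 u v h x y (by exact_mod_cast hb x y hxy)⟩

structure Strm (k : ℕ) (ζ : Zc) (Ψ : ℤ → ℤ → ℤ) : Prop where
  lip : ∀ x y, |Ψ (x + 1) y - Ψ x y| ≤ 2 ∧ |Ψ x (y + 1) - Ψ x y| ≤ 2
  ext : ∀ x y : ℤ, (∀ j < k, ∀ u v, ζ j u v → pW j < |x - u| + |y - v|) → Ψ x y = x
  flat : ∀ j < k, ∀ u v, ζ j u v → ∀ S, Nest ζ j S →
    (∀ x y, S x y → |x - u| + |y - v| ≤ pD j + 2) → ∃ c, ∀ x y, S x y → Ψ x y = c

lemma ex_strm (k : ℕ) (ζ : Zc) (hζ : Sep ζ) : ∃ Ψ, Strm k ζ Ψ := by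
  obtain ⟨ψ, a1, a2, _, a4⟩ := stream ζ hζ k (fun x _ => x) (fun x y => by
    have : (0 : ℝ) ≤ 1 / ((k : ℝ) + 1) := by positivity
    push_cast
    simp only [add_sub_cancel_left, abs_one, sub_self, abs_zero]
    constructor <;> linarith)
  have hf : ∀ a b : ℝ, |a - b| ≤ 2 → |⌊a⌋ - ⌊b⌋| ≤ 2 := by
    intro a b h
    obtain ⟨h1, h2⟩ := abs_le.1 h
    have c1 := Int.floor_le_floor (show a ≤ b + (2 : ℤ) by push_cast; linarith)
    have c2 := Int.floor_le_floor (show b ≤ a + (2 : ℤ) by push_cast; linarith)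
    rw [Int.floor_add_intCast] at c1 c2
    rw [abs_le]
    omega
  refine ⟨fun x y => ⌊ψ x y⌋, fun x y => ⟨hf _ _ (a1 x y).1, hf _ _ (a1 x y).2⟩, fun x y h => ?_,
    fun j hj u v h S hS hb => ?_⟩
  · rw [a2 x y h, Int.floor_intCast]
  · obtain ⟨c, hc⟩ := a4 j hj u v h S hS hb
    exact ⟨⌊c⌋, fun x y hxy => by rw [hc x y hxy]⟩

end Pool.Agent.H.MP_141b7f_lc
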